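import Pool.Agent.Y57.FD.Mom

/-!
# The first unstable moment

`inj_sum`: for `D + 1 = 2 g + 2` different points the sum over all monic polynomials `f` of degree `D` of the product of the `χ(f(x_i))`
is `- q ^ g` (a Jacobi sum, since the values satisfy one affine relation); `main2`: the moments up to the order `2 g + 3` of the
character sums of random monic polynomials of degree `2 g + 1` are those of the trace of a random matrix in `USp(2g)`.
-/

set_option autoImplicit false

namespace Pool.Agent.Y57.FD.Mom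

open Finset

section Jac

variable (K : Type) [Field K] [Fintype K] [DecidableEq K]

/-- the quadratic character with real values -/
noncomputable def ch (c : K) : ℝ := (quadraticChar K c : ℝ)

theorem ch_mul (a b : K) : ch K (a * b) = ch K a * ch K b := by
  unfold ch
  rw [map_mul]
  push_cast
  rfl

theorem ch_zero : ch K 0 = 0 := by
  unfold ch
  rw [MulChar.map_zero]
  simp

theorem ch_one : ch K 1 = 1 := by
  unfold ch
  rw [map_one]
  simp

theorem ch_sq {a : K} (ha : a ≠ 0) : ch K a * ch K a = 1 := by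
  unfold ch
  rcases quadraticChar_dichotomy ha with h | h
  · rw [h]
    norm_num
  · rw [h]
    norm_num

theorem ch_sum (hK : ringChar K ≠ 2) : ∑ c : K, ch K c = 0 := by
  unfold ch
  have h := quadraticChar_sum_zero (F := K) hK
  exact_mod_cast h

theorem ch_neg_sq : ch K (-1) * ch K (-1) = 1 := ch_sq K (neg_ne_zero.2 one_ne_zero)

theorem ch_inv (a : K) : ch K a⁻¹ = ch K a := by
  by_cases ha : a = 0
  · rw [ha, inv_zero]
  · have h1 : ch K a * ch K a⁻¹ = 1 := by
      rw [← ch_mul, mul_inv_cancel₀ ha, ch_one]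
    have h2 := ch_sq K ha
    have h3 : ch K a ≠ 0 := by
      intro h
      rw [h, zero_mul] at h2
      exact zero_ne_one h2
    exact mul_left_cancel₀ h3 (h1.trans h2.symm)

theorem ch_prod {ι : Type} (s : Finset ι) (f : ι → K) : ch K (∏ i ∈ s, f i) = ∏ i ∈ s, ch K (f i) := by
  classical
  induction s using Finset.induction_on with
  | empty => rw [prod_empty, prod_empty, ch_one]
  | insert a s ha ih => rw [prod_insert ha, prod_insert ha, ch_mul, ih]

/-- the Jacobi sum of `D + 1` quadratic characters with the sum `t` -/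
noncomputable def T (D : ℕ) (t : K) : ℝ := ∑ w : Fin D → K, (∏ i, ch K (w i)) * ch K (t - ∑ i, w i)

theorem T_zero (t : K) : T K 0 t = ch K t := by
  unfold T
  simp

theorem T_succ (D : ℕ) (t : K) : T K (D + 1) t = ∑ c, ch K c * T K D (t - c) := by
  unfold T
  simp only [mul_sum]
  rw [← Fintype.sum_prod_type' (f := fun (c : K) (w : Fin D → K) => ch K c * ((∏ i, ch K (w i)) * ch K (t - c - ∑ i, w i)))]
  refine (Fintype.sum_equiv (Fin.consEquiv (fun _ : Fin (D + 1) => K)) _ _ ?_).symm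
  intro x
  rw [Fin.sum_univ_succ, Fin.prod_univ_succ]
  simp only [Fin.consEquiv, Equiv.coe_fn_mk, Fin.cons_zero, Fin.cons_succ]
  rw [mul_assoc, sub_sub]

theorem T_one (hK : ringChar K ≠ 2) (t : K) :
    T K 1 t = ch K (-1) * ((if t = 0 then (Fintype.card K : ℝ) else 0) - 1) := by
  rw [T_succ]
  simp only [T_zero]
  by_cases ht : t = 0
  · rw [ht, if_pos rfl]
    have h1 : ∀ c : K, ch K c * ch K (0 - c) = ch K (-1) * (1 - if c = 0 then 1 else 0) := by
      intro c
      by_cases hc : c = 0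
      · rw [hc, ch_zero, if_pos rfl]
        ring
      · rw [if_neg hc, zero_sub, ← neg_one_mul, ch_mul]
        linear_combination ch K (-1) * ch_sq K hc
    rw [sum_congr rfl (fun c _ => h1 c), ← mul_sum, sum_sub_distrib, sum_ite_eq' univ (0 : K) (fun _ => (1 : ℝ)), if_pos (mem_univ _),
      sum_const, card_univ, nsmul_eq_mul, mul_one]
  · rw [if_neg ht]
    have h1 : ∑ c : K, ch K c * ch K (t - c) = ∑ c : K, ch K c * ch K (1 - c) := by
      refine (Fintype.sum_equiv (Equiv.mulLeft₀ t ht) _ _ ?_).symm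
      intro c
      show ch K c * ch K (1 - c) = ch K (t * c) * ch K (t - t * c)
      rw [show t - t * c = t * (1 - c) by ring, ch_mul, ch_mul]
      linear_combination - ch K c * ch K (1 - c) * ch_sq K ht
    rw [h1]
    have h2 := jacobiSum_nontrivial_inv (χ := quadraticChar K) (quadraticChar_ne_one hK)
    rw [MulChar.IsQuadratic.inv (quadraticChar_isQuadratic K)] at h2
    unfold jacobiSum at h2
    unfold ch
    have h3 : ∑ c : K, (quadraticChar K c : ℝ) * (quadraticChar K (1 - c) : ℝ) = -(quadraticChar K (-1) : ℝ) := by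
      exact_mod_cast h2
    rw [h3]
    ring

theorem T_both (hK : ringChar K ≠ 2) (k : ℕ) : (∀ t, T K (2 * k) t = (ch K (-1) * (Fintype.card K : ℝ)) ^ k * ch K t) ∧
    (∀ t, T K (2 * k + 1) t = (ch K (-1) * (Fintype.card K : ℝ)) ^ k * T K 1 t) := by
  have step : ∀ k : ℕ, (∀ t, T K (2 * k) t = (ch K (-1) * (Fintype.card K : ℝ)) ^ k * ch K t) →
      (∀ t, T K (2 * k + 1) t = (ch K (-1) * (Fintype.card K : ℝ)) ^ k * T K 1 t) := by
    intro k h t
    rw [T_succ, T_succ K 0, mul_sum]
    apply sum_congr rfl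
    intro c _
    rw [h, T_zero]
    ring
  induction k with
  | zero =>
    have h0 : ∀ t, T K (2 * 0) t = (ch K (-1) * (Fintype.card K : ℝ)) ^ 0 * ch K t := by
      intro t
      rw [mul_zero, T_zero, pow_zero, one_mul]
    exact ⟨h0, step 0 h0⟩
  | succ k ih =>
    have h0 : ∀ t, T K (2 * (k + 1)) t = (ch K (-1) * (Fintype.card K : ℝ)) ^ (k + 1) * ch K t := by
      intro t
      rw [show 2 * (k + 1) = 2 * k + 1 + 1 by ring, T_succ]
      have h1 : ∀ c : K, ch K c * T K (2 * k + 1) (t - c) = (ch K (-1) * (Fintype.card K : ℝ)) ^ k * ch K (-1) *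
          ((if c = t then (Fintype.card K : ℝ) * ch K c else 0) - ch K c) := by
        intro c
        rw [ih.2, T_one K hK]
        by_cases h : c = t
        · rw [if_pos h, if_pos (by rw [h, sub_self])]
          ring
        · rw [if_neg h, if_neg (fun h' => h (sub_eq_zero.1 h').symm)]
          ring
      rw [sum_congr rfl (fun c _ => h1 c), ← mul_sum, sum_sub_distrib, ch_sum K hK,
        sum_ite_eq' univ t (fun c => (Fintype.card K : ℝ) * ch K c), if_pos (mem_univ _)]
      ring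
    exact ⟨h0, step (k + 1) h0⟩

theorem T_val (hK : ringChar K ≠ 2) (g : ℕ) : T K (2 * g + 1) 1 = - (ch K (-1)) ^ (g + 1) * (Fintype.card K : ℝ) ^ g := by
  rw [(T_both K hK g).2, T_one K hK, if_neg one_ne_zero, mul_pow]
  ring

theorem prod_sign {n : ℕ} (x : Fin n → K) (hx : Function.Injective x) :
    ∏ i, ∏ j ∈ univ.erase i, ch K (x i - x j) = ch K (-1) ^ (∑ i : Fin n, (Ioi i).card) := by
  have h1 : ∀ i : Fin n, ∏ j ∈ univ.erase i, ch K (x i - x j) = (∏ j ∈ Ioi i, ch K (x i - x j)) * ∏ j ∈ Iio i, ch K (x i - x j) := by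
    intro i
    rw [← prod_union]
    · apply prod_congr _ (fun _ _ => rfl)
      ext j
      simp only [mem_erase, mem_univ, and_true, mem_union, mem_Ioi, mem_Iio]
      constructor
      · intro h
        rcases lt_trichotomy i j with h' | h' | h'
        · exact Or.inl h'
        · exact absurd h'.symm h
        · exact Or.inr h'
      · rintro (h | h)
        · exact h.ne'
        · exact h.ne
    · rw [disjoint_left]
      intro j h2 h3
      rw [mem_Ioi] at h2
      rw [mem_Iio] at h3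
      exact lt_asymm h2 h3
  rw [prod_congr rfl (fun i _ => h1 i), prod_mul_distrib]
  have h2 : ∏ i, ∏ j ∈ Iio i, ch K (x i - x j) = ∏ i, ∏ j ∈ Ioi i, ch K (x j - x i) := by
    apply prod_comm'
    intro i j
    simp
  rw [h2, ← prod_mul_distrib, ← prod_pow_eq_pow_sum]
  apply prod_congr rfl
  intro i _
  rw [← prod_mul_distrib, ← prod_const]
  apply prod_congr rfl
  intro j hj
  rw [mem_Ioi] at hj
  have h3 : x i - x j ≠ 0 := fun h => hj.ne (hx (sub_eq_zero.1 h))
  rw [show x j - x i = (-1) * (x i - x j) by ring, ch_mul]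
  linear_combination ch K (-1) * ch_sq K h3

theorem sum_Ioi (n : ℕ) : 2 * ∑ i : Fin n, (Ioi i).card = n * (n - 1) := by
  have h1 : ∑ i : Fin n, (Ioi i).card = ∑ i ∈ range n, (n - 1 - i) := by
    rw [← Fin.sum_univ_eq_sum_range (fun i => n - 1 - i) n]
    apply sum_congr rfl
    intro i _
    rw [Fin.card_Ioi]
  rw [h1, Finset.sum_range_reflect (fun i => i) n, mul_comm, Finset.sum_range_id_mul_two]

theorem sign_val (g : ℕ) (x : Fin (2 * g + 1 + 1) → K) (hx : Function.Injective x) :
    ∏ i, ∏ j ∈ univ.erase i, ch K (x i - x j) = ch K (-1) ^ (g + 1) := by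
  rw [prod_sign K x hx]
  have h1 := sum_Ioi (2 * g + 1 + 1)
  have h2 : ∑ i : Fin (2 * g + 1 + 1), (Ioi i).card = (g + 1) * (2 * g + 1) := by
    have h3 : (2 * g + 1 + 1) * (2 * g + 1 + 1 - 1) = 2 * ((g + 1) * (2 * g + 1)) := by
      rw [Nat.add_sub_cancel]
      ring
    omega
  rw [h2, show (g + 1) * (2 * g + 1) = 2 * (g * (g + 1)) + (g + 1) by ring, pow_add, pow_mul, pow_two, ch_neg_sq, one_pow, one_mul]

end Jac

section Inj

variable (K : Type) [Field K] [Fintype K] [DecidableEq K]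

/-- the affine relation of the values of a monic polynomial at `D + 1` points -/
theorem relation (D : ℕ) (x : Fin (D + 1) → K) (hx : Function.Injective x) (u : Fin D → K) :
    ∑ i, (∏ j ∈ univ.erase i, (x i - x j))⁻¹ * val K D u (x i) = 1 := by
  obtain ⟨P, hP⟩ : ∃ P : Polynomial K, P = Polynomial.X ^ D + ∑ i : Fin D, Polynomial.C (u i) * Polynomial.X ^ (i : ℕ) := ⟨_, rfl⟩
  have hdeg : (∑ i : Fin D, Polynomial.C (u i) * Polynomial.X ^ (i : ℕ) : Polynomial K).degree < D :=
    Polynomial.degree_sum_fin_lt u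
  have h1 : P.degree < (univ : Finset (Fin (D + 1))).card := by
    rw [card_univ, Fintype.card_fin, hP]
    refine (Polynomial.degree_add_le _ _).trans_lt ?_
    rw [Polynomial.degree_X_pow, max_lt_iff]
    refine ⟨by exact_mod_cast Nat.lt_succ_self D, hdeg.trans (by exact_mod_cast Nat.lt_succ_self D)⟩
  have h2 := Lagrange.coeff_eq_sum (s := univ) (v := x) hx.injOn h1
  rw [card_univ, Fintype.card_fin, Nat.add_sub_cancel] at h2
  have h3 : P.coeff D = 1 := by
    rw [hP, Polynomial.coeff_add, Polynomial.coeff_X_pow, if_pos rfl, Polynomial.coeff_eq_zero_of_degree_lt hdeg, add_zero]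
  rw [h3] at h2
  rw [h2]
  apply sum_congr rfl
  intro i _
  rw [div_eq_inv_mul]
  congr 1
  rw [hP]
  unfold val
  simp [Polynomial.eval_finset_sum]

/-- the values at the first points -/
def phi (D : ℕ) (x : Fin D → K) : (Fin D → K) →+ (Fin D → K) where
  toFun u i := ∑ j, u j * (x i) ^ (j : ℕ)
  map_zero' := by
    funext i
    simp
  map_add' u v := by
    funext i
    simp [add_mul, sum_add_distrib]

theorem phi_surj (D : ℕ) (x : Fin D → K) (hx : Function.Injective x) : Function.Surjective (phi K D x) := by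
  intro v
  obtain ⟨s, hs⟩ : ∃ s : Finset K, s = univ.image x := ⟨_, rfl⟩
  have hsx : ∀ i, x i ∈ s := fun i => by rw [hs]; exact mem_image_of_mem x (mem_univ i)
  have hsc : s.card ≤ D := by
    rw [hs]
    refine card_image_le.trans ?_
    rw [card_univ, Fintype.card_fin]
  rcases Nat.eq_zero_or_pos D with hD | hD
  · refine ⟨0, ?_⟩
    funext i
    exact absurd i.2 (by omega)
  · have hne : Nonempty (Fin D) := ⟨⟨0, hD⟩⟩
    obtain ⟨u, hu⟩ := ev_surj K D s hsc (fun y => v (Function.invFun x (y : K)))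
    refine ⟨u, ?_⟩
    funext i
    have h1 := congrFun hu ⟨x i, hsx i⟩
    have h2 : Function.invFun x (x i) = i := Function.leftInverse_invFun hx i
    show ∑ j, u j * (x i) ^ (j : ℕ) = v i
    have h3 : ∑ j, u j * (x i) ^ (j : ℕ) = v (Function.invFun x (x i)) := h1
    rw [h3, h2]

theorem inj_aux (g D : ℕ) (x : Fin (D + 1) → K) (hx : Function.Injective x)
    (hT : T K D 1 = - (ch K (-1)) ^ (g + 1) * (Fintype.card K : ℝ) ^ g)
    (hS : ∏ i, ∏ j ∈ univ.erase i, ch K (x i - x j) = ch K (-1) ^ (g + 1)) :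
    ∑ u : Fin D → K, ∏ i, ch K (val K D u (x i)) = - (Fintype.card K : ℝ) ^ g := by
  obtain ⟨l, hl⟩ : ∃ l : Fin (D + 1) → K, l = fun i => (∏ j ∈ univ.erase i, (x i - x j))⁻¹ := ⟨_, rfl⟩
  have hl0 : ∀ i, l i ≠ 0 := by
    intro i
    rw [hl]
    apply inv_ne_zero
    rw [prod_ne_zero_iff]
    intro j hj
    rw [mem_erase] at hj
    intro h
    exact hj.1 (hx (sub_eq_zero.1 h)).symm
  have hlS : ∏ i, ch K (l i) = ch K (-1) ^ (g + 1) := by
    rw [← hS]
    apply prod_congr rfl
    intro i _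
    rw [hl]
    show ch K (∏ j ∈ univ.erase i, (x i - x j))⁻¹ = _
    rw [ch_inv, ch_prod]
  have hxc : Function.Injective (fun i : Fin D => x i.castSucc) := fun i j h => Fin.castSucc_injective D (hx h)
  have h1 := mean_hom (phi K D (fun i => x i.castSucc)) (phi_surj K D _ hxc)
    (fun v => (∏ i : Fin D, ch K ((x i.castSucc) ^ D + v i)) *
      ch K ((l (Fin.last D))⁻¹ * (1 - ∑ i : Fin D, l i.castSucc * ((x i.castSucc) ^ D + v i))))
  have hq : (Fintype.card (Fin D → K) : ℝ) ≠ 0 := by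
    have : 0 < Fintype.card (Fin D → K) := Fintype.card_pos
    exact_mod_cast this.ne'
  rw [div_left_inj' hq] at h1
  have h2 : ∑ u : Fin D → K, ∏ i, ch K (val K D u (x i)) = ∑ u : Fin D → K,
      (∏ i : Fin D, ch K ((x i.castSucc) ^ D + phi K D (fun i => x i.castSucc) u i)) *
      ch K ((l (Fin.last D))⁻¹ * (1 - ∑ i : Fin D, l i.castSucc * ((x i.castSucc) ^ D + phi K D (fun i => x i.castSucc) u i))) := by
    apply sum_congr rfl
    intro u _
    rw [Fin.prod_univ_castSucc]
    have h3 : ∀ i : Fin D, (x i.castSucc) ^ D + phi K D (fun i => x i.castSucc) u i = val K D u (x i.castSucc) := fun i => rfl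
    simp only [h3]
    congr 2
    have h4 := relation K D x hx u
    rw [Fin.sum_univ_castSucc] at h4
    have h5 : ∀ i, (∏ j ∈ univ.erase i, (x i - x j))⁻¹ = l i := fun i => by rw [hl]
    simp only [h5] at h4
    rw [← h4]
    field_simp [hl0 (Fin.last D)]
    ring
  rw [h2, h1]
  -- translation
  have h3 : ∑ v : Fin D → K, (∏ i : Fin D, ch K ((x i.castSucc) ^ D + v i)) *
      ch K ((l (Fin.last D))⁻¹ * (1 - ∑ i : Fin D, l i.castSucc * ((x i.castSucc) ^ D + v i))) =
      ∑ v : Fin D → K, (∏ i : Fin D, ch K (v i)) * ch K ((l (Fin.last D))⁻¹ * (1 - ∑ i : Fin D, l i.castSucc * v i)) := by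
    refine Fintype.sum_equiv (Equiv.addLeft (fun i : Fin D => (x i.castSucc) ^ D)) _ _ ?_
    intro v
    rfl
  -- dilation
  have h4 : ∑ v : Fin D → K, (∏ i : Fin D, ch K (v i)) * ch K ((l (Fin.last D))⁻¹ * (1 - ∑ i : Fin D, l i.castSucc * v i)) =
      ∑ w : Fin D → K, (∏ i : Fin D, ch K (l i.castSucc) * ch K (w i)) * (ch K (l (Fin.last D)) * ch K (1 - ∑ i : Fin D, w i)) := by
    refine Fintype.sum_equiv (Equiv.piCongrRight (fun i : Fin D => Equiv.mulLeft₀ (l i.castSucc) (hl0 _))) _ _ ?_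
    intro v
    show (∏ i : Fin D, ch K (v i)) * ch K ((l (Fin.last D))⁻¹ * (1 - ∑ i : Fin D, l i.castSucc * v i)) =
      (∏ i : Fin D, ch K (l i.castSucc) * ch K (l i.castSucc * v i)) * (ch K (l (Fin.last D)) * ch K (1 - ∑ i : Fin D, l i.castSucc * v i))
    rw [ch_mul K (l (Fin.last D))⁻¹, ch_inv]
    congr 1
    apply prod_congr rfl
    intro i _
    rw [ch_mul]
    linear_combination - ch K (v i) * ch_sq K (hl0 i.castSucc)
  rw [h3, h4]
  have h5 : ∀ w : Fin D → K, (∏ i : Fin D, ch K (l i.castSucc) * ch K (w i)) * (ch K (l (Fin.last D)) * ch K (1 - ∑ i : Fin D, w i)) =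
      (∏ i, ch K (l i)) * ((∏ i, ch K (w i)) * ch K (1 - ∑ i, w i)) := by
    intro w
    rw [prod_mul_distrib, Fin.prod_univ_castSucc (fun i => ch K (l i))]
    ring
  rw [sum_congr rfl (fun w _ => h5 w), ← mul_sum, hlS]
  have h6 : ∑ w : Fin D → K, (∏ i, ch K (w i)) * ch K (1 - ∑ i, w i) = T K D 1 := rfl
  rw [h6, hT]
  have h7 : ch K (-1) ^ (g + 1) * ch K (-1) ^ (g + 1) = 1 := by
    rw [← mul_pow, ch_neg_sq, one_pow]
  linear_combination - (Fintype.card K : ℝ) ^ g * h7

theorem inj_sum (hK : ringChar K ≠ 2) (g : ℕ) (x : Fin (2 * g + 1 + 1) → K) (hx : Function.Injective x) :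
    ∑ u : Fin (2 * g + 1) → K, ∏ i, ch K (val K (2 * g + 1) u (x i)) = - (Fintype.card K : ℝ) ^ g :=
  inj_aux K g (2 * g + 1) x hx (T_val K hK g) (sign_val K g x hx)

end Inj

section Moment

variable (K : Type) [Field K] [Fintype K] [DecidableEq K]

theorem prod_mean' (m D : ℕ) (x : Fin m → K) (hm : (univ.image x).card ≤ D) :
    (∑ u : Fin D → K, ∏ i, (quadraticChar K (val K D u (x i)) : ℝ)) / (Fintype.card K : ℝ) ^ D =
    (∑ h : K → K, ∏ i, (quadraticChar K (h (x i)) : ℝ)) / (Fintype.card K : ℝ) ^ (Fintype.card K) := by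
  obtain ⟨s, hs⟩ : ∃ s : Finset K, s = univ.image x := ⟨_, rfl⟩
  have hsx : ∀ i, x i ∈ s := fun i => by rw [hs]; exact mem_image_of_mem x (mem_univ i)
  have hsc : s.card ≤ D := by
    rw [hs]
    exact hm
  have h1 := mean_hom (ev K D s) (ev_surj K D s hsc)
    (fun v => ∏ i, (quadraticChar K ((x i) ^ D + v ⟨x i, hsx i⟩) : ℝ))
  have h2 := mean_hom (res K s) (res_surj K s) (fun v => ∏ i, (quadraticChar K (v ⟨x i, hsx i⟩) : ℝ))
  have h3 : (∑ v : s → K, ∏ i, (quadraticChar K ((x i) ^ D + v ⟨x i, hsx i⟩) : ℝ)) =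
      ∑ v : s → K, ∏ i, (quadraticChar K (v ⟨x i, hsx i⟩) : ℝ) := by
    refine Fintype.sum_equiv (Equiv.addLeft (fun y : s => (y : K) ^ D)) _ _ ?_
    intro v
    rfl
  rw [h3, ← h2] at h1
  have c1 : (Fintype.card (Fin D → K) : ℝ) = (Fintype.card K : ℝ) ^ D := by
    rw [Fintype.card_pi_const]
    push_cast
    rfl
  have c2 : (Fintype.card (K → K) : ℝ) = (Fintype.card K : ℝ) ^ (Fintype.card K) := by
    rw [Fintype.card_fun]
    push_cast
    rfl
  rw [c1, c2] at h1
  exact h1

theorem exists_neg (hK : ringChar K ≠ 2) : ∃ c : K, c ≠ 0 ∧ ch K c = -1 := by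
  obtain ⟨c, hc⟩ := FiniteField.exists_nonsquare hK
  have hc0 : c ≠ 0 := by
    rintro rfl
    exact hc (IsSquare.zero)
  refine ⟨c, hc0, ?_⟩
  unfold ch
  rw [quadraticChar_neg_one_iff_not_isSquare.2 hc]
  norm_num

theorem prod_inj (hK : ringChar K ≠ 2) (n : ℕ) (x : Fin (n + 1) → K) (hx : Function.Injective x) :
    ∑ h : K → K, ∏ i, ch K (h (x i)) = 0 := by
  obtain ⟨c, hc0, hc⟩ := exists_neg K hK
  have h1 : ∑ h : K → K, ∏ i, ch K (h (x i)) = ∑ h : K → K, - ∏ i, ch K (h (x i)) := by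
    refine (Fintype.sum_equiv (Equiv.piCongrRight (fun y : K => if y = x 0 then Equiv.mulLeft₀ c hc0 else Equiv.refl K)) _ _ ?_).symm
    intro h
    rw [Fin.prod_univ_succ, Fin.prod_univ_succ]
    have h2 : ∀ y, (Equiv.piCongrRight (fun y : K => if y = x 0 then Equiv.mulLeft₀ c hc0 else Equiv.refl K)) h y =
        if y = x 0 then c * h y else h y := by
      intro y
      show (if y = x 0 then Equiv.mulLeft₀ c hc0 else Equiv.refl K) (h y) = _
      split_ifs <;> rfl
    simp only [h2, if_true]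
    have h3 : ∀ i : Fin n, (if x i.succ = x 0 then c * h (x i.succ) else h (x i.succ)) = h (x i.succ) := by
      intro i
      rw [if_neg (fun h' => Fin.succ_ne_zero i (hx h'))]
    simp only [h3]
    rw [ch_mul, hc]
    ring
  rw [sum_neg_distrib] at h1
  linarith

theorem moment_odd (hK : ringChar K ≠ 2) (D m : ℕ) (hD : Odd D) (hm : Odd m) :
    ∑ u : Fin D → K, (∑ x : K, ch K (val K D u x)) ^ m = 0 := by
  obtain ⟨c, hc0, hc⟩ := exists_neg K hK
  have hcD : ch K (c ^ D) = -1 := by
    have : ch K (c ^ D) = ch K c ^ D := by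
      unfold ch
      rw [map_pow]
      push_cast
      rfl
    rw [this, hc, hD.neg_one_pow]
  have h1 : ∑ u : Fin D → K, (∑ x : K, ch K (val K D u x)) ^ m = ∑ u : Fin D → K, - (∑ x : K, ch K (val K D u x)) ^ m := by
    refine (Fintype.sum_equiv (Equiv.piCongrRight (fun i : Fin D => Equiv.mulLeft₀ (c ^ (D - (i : ℕ))) (pow_ne_zero _ hc0))) _ _ ?_).symm
    intro u
    have h2 : ∑ x : K, ch K (val K D (fun i => c ^ (D - (i : ℕ)) * u i) x) = - ∑ x : K, ch K (val K D u x) := by
      rw [← sum_neg_distrib]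
      refine (Fintype.sum_equiv (Equiv.mulLeft₀ c hc0) _ _ ?_).symm
      intro x
      show - ch K (val K D u x) = ch K (val K D (fun i => c ^ (D - (i : ℕ)) * u i) (c * x))
      have h3 : val K D (fun i => c ^ (D - (i : ℕ)) * u i) (c * x) = c ^ D * val K D u x := by
        unfold val
        rw [mul_add, mul_pow, mul_sum]
        congr 1
        apply sum_congr rfl
        intro i _
        have h4 : c ^ D = c ^ (D - (i : ℕ)) * c ^ (i : ℕ) := by
          rw [← pow_add, Nat.sub_add_cancel i.2.le]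
        rw [h4, mul_pow]
        ring
      rw [h3, ch_mul, hcD]
      ring
    show - (∑ x : K, ch K (val K D u x)) ^ m = (∑ x : K, ch K (val K D (fun i => c ^ (D - (i : ℕ)) * u i) x)) ^ m
    rw [h2, hm.neg_pow]
  rw [sum_neg_distrib] at h1
  linarith

theorem card_inj (m : ℕ) : (∑ x : Fin m → K, if Function.Injective x then (1 : ℝ) else 0) = ((Fintype.card K).descFactorial m : ℝ) := by
  classical
  rw [← sum_filter, sum_const, nsmul_eq_mul, mul_one]
  congr 1
  rw [← Fintype.card_subtype, Fintype.card_congr (Equiv.subtypeInjectiveEquivEmbedding (Fin m) K), Fintype.card_embedding_eq,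
    Fintype.card_fin]

theorem moment_top (hK : ringChar K ≠ 2) (g : ℕ) :
    (∑ u : Fin (2 * g + 1) → K, (∑ x : K, (quadraticChar K (val K (2 * g + 1) u x) : ℝ)) ^ (2 * g + 1 + 1)) /
      (Fintype.card K : ℝ) ^ (2 * g + 1) =
    M K (2 * g + 1 + 1) (Fintype.card K) -
      (Fintype.card K : ℝ) ^ g * ((Fintype.card K).descFactorial (2 * g + 1 + 1) : ℝ) / (Fintype.card K : ℝ) ^ (2 * g + 1) := by
  classical
  have h1 : ∀ u : Fin (2 * g + 1) → K, (∑ x : K, (quadraticChar K (val K (2 * g + 1) u x) : ℝ)) ^ (2 * g + 1 + 1) =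
      ∑ x : Fin (2 * g + 1 + 1) → K, ∏ i, (quadraticChar K (val K (2 * g + 1) u (x i)) : ℝ) := fun u => Fintype.sum_pow _ _
  have h2 : ∀ h : K → K, (∑ x : K, (quadraticChar K (h x) : ℝ)) ^ (2 * g + 1 + 1) =
      ∑ x : Fin (2 * g + 1 + 1) → K, ∏ i, (quadraticChar K (h (x i)) : ℝ) := fun u => Fintype.sum_pow _ _
  have h3 : M K (2 * g + 1 + 1) (Fintype.card K) = (∑ h : K → K, (∑ x : K, (quadraticChar K (h x) : ℝ)) ^ (2 * g + 1 + 1)) /
      (Fintype.card K : ℝ) ^ (Fintype.card K) := by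
    unfold M
    congr 1
    refine Fintype.sum_equiv (Equiv.arrowCongr (Fintype.equivFin K).symm (Equiv.refl K)) _ _ ?_
    intro w
    congr 1
    refine Fintype.sum_equiv (Fintype.equivFin K).symm _ _ ?_
    intro i
    simp [Equiv.arrowCongr]
  have hpt : ∀ x : Fin (2 * g + 1 + 1) → K,
      (∑ u : Fin (2 * g + 1) → K, ∏ i, (quadraticChar K (val K (2 * g + 1) u (x i)) : ℝ)) / (Fintype.card K : ℝ) ^ (2 * g + 1) =
      (∑ h : K → K, ∏ i, (quadraticChar K (h (x i)) : ℝ)) / (Fintype.card K : ℝ) ^ (Fintype.card K) -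
      (if Function.Injective x then (1 : ℝ) else 0) * ((Fintype.card K : ℝ) ^ g / (Fintype.card K : ℝ) ^ (2 * g + 1)) := by
    intro x
    by_cases hx : Function.Injective x
    · have h4 : ∑ u : Fin (2 * g + 1) → K, ∏ i, (quadraticChar K (val K (2 * g + 1) u (x i)) : ℝ) = - (Fintype.card K : ℝ) ^ g :=
        inj_sum K hK g x hx
      have h5 : ∑ h : K → K, ∏ i, (quadraticChar K (h (x i)) : ℝ) = 0 := prod_inj K hK (2 * g + 1) x hx
      rw [h4, h5, if_pos hx]
      ring
    · rw [if_neg hx, zero_mul, sub_zero]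
      apply prod_mean'
      have h4 : (univ.image x).card ≠ (univ : Finset (Fin (2 * g + 1 + 1))).card := by
        intro h
        rw [card_image_iff] at h
        exact hx (fun a b hab => h (by simp) (by simp) hab)
      have h5 : (univ.image x).card ≤ (univ : Finset (Fin (2 * g + 1 + 1))).card := card_image_le
      rw [card_univ, Fintype.card_fin] at h4 h5
      omega
  rw [h3, sum_congr rfl (fun u _ => h1 u), sum_congr rfl (fun h _ => h2 h), sum_comm, sum_comm (s := (univ : Finset (K → K))),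
    sum_div, sum_div, sum_congr rfl (fun x _ => hpt x), sum_sub_distrib, ← sum_mul, card_inj]
  ring

theorem desc_bound (q k : ℕ) (hq : 1 ≤ q) (hk : 1 ≤ k) :
    |(q.descFactorial k : ℝ) / (q : ℝ) ^ k - 1| ≤ (k : ℝ) ^ 2 / (q : ℝ) := by
  have hq0 : (0 : ℝ) < q := by exact_mod_cast hq
  have h1 : (q.descFactorial k : ℝ) / (q : ℝ) ^ k ≤ 1 := by
    rw [div_le_one (by positivity)]
    exact_mod_cast Nat.descFactorial_le_pow q k
  rw [abs_sub_comm, abs_of_nonneg (by linarith)]
  rcases lt_or_ge q k with h | h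
  · have h2 : (0 : ℝ) ≤ (q.descFactorial k : ℝ) / (q : ℝ) ^ k := by positivity
    have h3 : (1 : ℝ) ≤ (k : ℝ) ^ 2 / (q : ℝ) := by
      rw [one_le_div hq0]
      have h4 : q ≤ k ^ 2 := h.le.trans (Nat.le_self_pow (by norm_num) k)
      exact_mod_cast h4
    linarith
  · have h2 : ((q + 1 - k : ℕ) : ℝ) ^ k ≤ (q.descFactorial k : ℝ) := by
      exact_mod_cast Nat.pow_sub_le_descFactorial q k
    have h3 : ((q + 1 - k : ℕ) : ℝ) = (q : ℝ) + 1 - k := by
      rw [Nat.cast_sub (by omega)]
      push_cast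
      ring
    have hk1 : (1 : ℝ) ≤ k := by exact_mod_cast hk
    have hkq : (k : ℝ) ≤ q := by exact_mod_cast h
    have h4 : 1 + (k : ℝ) * (-(((k : ℝ) - 1) / q)) ≤ (1 + (-(((k : ℝ) - 1) / q))) ^ k := by
      apply one_add_mul_le_pow
      have : ((k : ℝ) - 1) / q ≤ 1 := by
        rw [div_le_one hq0]
        linarith
      linarith
    have h5 : (1 + (-(((k : ℝ) - 1) / q))) ^ k = ((q + 1 - k : ℕ) : ℝ) ^ k / (q : ℝ) ^ k := by
      rw [h3, ← div_pow]
      congr 1
      field_simp
      ring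
    have h6 : ((q + 1 - k : ℕ) : ℝ) ^ k / (q : ℝ) ^ k ≤ (q.descFactorial k : ℝ) / (q : ℝ) ^ k :=
      div_le_div_of_nonneg_right h2 (by positivity)
    have h7 : (k : ℝ) * (((k : ℝ) - 1) / q) ≤ (k : ℝ) ^ 2 / q := by
      rw [← mul_div_assoc]
      apply div_le_div_of_nonneg_right _ hq0.le
      nlinarith
    rw [h5] at h4
    linarith

end Moment

/-- the moments of the trace of a random matrix in `USp(2g)` up to the order `2 g + 3` -/
noncomputable def usp (g m : ℕ) : ℝ := normal m - if m = 2 * g + 2 then 1 else 0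

/-- **The moments up to the order `2 g + 3` of the character sums of random monic polynomials of degree `2 g + 1`.** -/
theorem main2 (g m : ℕ) (hm : m ≤ 2 * g + 3) : ∃ C : ℝ, 0 ≤ C ∧ ∀ (K : Type) [Field K] [Fintype K] [DecidableEq K], ringChar K ≠ 2 →
    |(∑ u : Fin (2 * g + 1) → K, ((∑ x : K, (quadraticChar K (val K (2 * g + 1) u x) : ℝ)) / Real.sqrt (Fintype.card K)) ^ m) /
      (Fintype.card K : ℝ) ^ (2 * g + 1) - usp g m| ≤ C / (Fintype.card K : ℝ) := by
  rcases Nat.lt_or_ge m (2 * g + 2) with h1 | h1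
  · obtain ⟨C, hC, h⟩ := main m
    refine ⟨C, hC, fun K _ _ _ hK => ?_⟩
    unfold usp
    rw [if_neg (by omega), sub_zero]
    exact h K hK (2 * g + 1) (by omega)
  · rcases Nat.lt_or_ge (2 * g + 2) m with h2 | h2
    · obtain rfl : m = 2 * g + 3 := by omega
      refine ⟨0, le_rfl, fun K _ _ _ hK => ?_⟩
      have h3 := moment_odd K hK (2 * g + 1) (2 * g + 3) ⟨g, rfl⟩ ⟨g + 1, by ring⟩
      have h4 : ∀ u : Fin (2 * g + 1) → K, ((∑ x : K, (quadraticChar K (val K (2 * g + 1) u x) : ℝ)) / Real.sqrt (Fintype.card K)) ^ (2 * g + 3) =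
          (∑ x : K, ch K (val K (2 * g + 1) u x)) ^ (2 * g + 3) / (Real.sqrt (Fintype.card K)) ^ (2 * g + 3) := fun u => div_pow _ _ _
      unfold usp normal
      rw [if_neg (by rw [Nat.not_even_iff_odd]; exact ⟨g + 1, by ring⟩), if_neg (by omega), sum_congr rfl (fun u _ => h4 u), ← sum_div, h3]
      simp
    · obtain rfl : m = 2 * g + 2 := by omega
      obtain ⟨C, hC0, hC⟩ := growth (g + 1)
      refine ⟨C + ((2 * g + 2 : ℕ) : ℝ) ^ 2, by positivity, fun K _ _ _ hK => ?_⟩
      have hq1 : 1 ≤ Fintype.card K := Fintype.card_pos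
      have hq : (0 : ℝ) < Fintype.card K := by exact_mod_cast hq1
      have h1' := hC (Fintype.card K) hq1 (M K) (e K) (M_zero K) (M_N_zero K) (M_succ K) (e_zero K) (e_odd K hK) (e_even K)
        (Fintype.card K) le_rfl
      have h2' := moment_top K hK g
      have h3 : ∀ u : Fin (2 * g + 1) → K, ((∑ x : K, (quadraticChar K (val K (2 * g + 1) u x) : ℝ)) / Real.sqrt (Fintype.card K)) ^ (2 * g + 2) =
          (∑ x : K, (quadraticChar K (val K (2 * g + 1) u x) : ℝ)) ^ (2 * g + 1 + 1) / (Fintype.card K : ℝ) ^ (g + 1) := by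
        intro u
        rw [div_pow]
        congr 1
        rw [show 2 * g + 2 = 2 * (g + 1) by ring, pow_mul, Real.sq_sqrt hq.le]
      rw [sum_congr rfl (fun u _ => h3 u), ← sum_div, div_right_comm, h2']
      have h4 := desc_bound (Fintype.card K) (2 * g + 2) hq1 (by omega)
      have h5 : (M K (2 * g + 1 + 1) (Fintype.card K) -
          (Fintype.card K : ℝ) ^ g * ((Fintype.card K).descFactorial (2 * g + 1 + 1) : ℝ) / (Fintype.card K : ℝ) ^ (2 * g + 1)) /
            (Fintype.card K : ℝ) ^ (g + 1) - usp g (2 * g + 2) =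
          (M K (2 * (g + 1)) (Fintype.card K) - (Nat.doubleFactorial (2 * (g + 1) - 1) : ℝ) * (Fintype.card K : ℝ) ^ (g + 1)) /
            (Fintype.card K : ℝ) ^ (g + 1) -
          (((Fintype.card K).descFactorial (2 * g + 2) : ℝ) / (Fintype.card K : ℝ) ^ (2 * g + 2) - 1) := by
        unfold usp normal
        rw [if_pos (show Even (2 * g + 2) from ⟨g + 1, by ring⟩), if_pos rfl, show 2 * (g + 1) = 2 * g + 2 by ring,
          show 2 * g + 1 + 1 = 2 * g + 2 by ring, show 2 * g + 2 = (2 * g + 1) + 1 by ring]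
        rw [sub_div, sub_div, mul_div_assoc _ ((Fintype.card K : ℝ) ^ (g + 1)), div_self (by positivity), div_div, ← pow_add]
        have h6 : (Fintype.card K : ℝ) ^ g * ((Fintype.card K).descFactorial (2 * g + 1 + 1) : ℝ) / (Fintype.card K : ℝ) ^ (2 * g + 1 + (g + 1)) =
            ((Fintype.card K).descFactorial (2 * g + 1 + 1) : ℝ) / (Fintype.card K : ℝ) ^ (2 * g + 1 + 1) := by
          rw [show 2 * g + 1 + (g + 1) = g + (2 * g + 1 + 1) by ring, pow_add]
          field_simp
        rw [h6]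
        ring
      rw [h5]
      have h7 : |(M K (2 * (g + 1)) (Fintype.card K) - (Nat.doubleFactorial (2 * (g + 1) - 1) : ℝ) * (Fintype.card K : ℝ) ^ (g + 1)) /
            (Fintype.card K : ℝ) ^ (g + 1)| ≤ C / (Fintype.card K : ℝ) := by
        rw [abs_div, abs_of_pos (by positivity : (0 : ℝ) < (Fintype.card K : ℝ) ^ (g + 1)), div_le_iff₀ (by positivity)]
        refine h1'.trans (le_of_eq ?_)
        ring
      refine (abs_sub _ _).trans ((add_le_add h7 h4).trans (le_of_eq ?_))
      rw [add_div]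

end Pool.Agent.Y57.FD.Mom
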