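import Pool.Agent.Y57.FD.Base
import Pool.Agent.Y57.FD.Mom2
import Pool.Agent.H341R2.WeilSharp

/-!
# The moments of the normalised traces of the curves `y ^ 2 = x ^ (2 g + 1) + n (2 g) x ^ (2 g) + ... + n 0` modulo `p`
-/

set_option autoImplicit false

namespace Pool.Agent.Y57.FD.HM

open Finset
open Pool.Agent.Y57.FD.Mom (val usp normal)

section One

variable (p : ℕ) [Fact p.Prime]

/-- the polynomial with the coefficients `u` -/
noncomputable def pol {D : ℕ} (u : Fin D → ZMod p) : Polynomial (ZMod p) :=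
  Polynomial.X ^ D + ∑ i, Polynomial.C (u i) * Polynomial.X ^ (i : ℕ)

lemma pol_eval {D : ℕ} (u : Fin D → ZMod p) (x : ZMod p) : (pol p u).eval x = val (ZMod p) D u x := by
  unfold pol Mom.val
  simp [Polynomial.eval_finset_sum]

lemma deg_low {D : ℕ} (u : Fin D → ZMod p) : (∑ i, Polynomial.C (u i) * Polynomial.X ^ (i : ℕ) : Polynomial (ZMod p)).degree < D := by
  exact Polynomial.degree_sum_fin_lt u

lemma pol_monic {D : ℕ} (u : Fin D → ZMod p) : (pol p u).Monic := Polynomial.monic_X_pow_add (deg_low p u)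

lemma pol_natDegree {D : ℕ} (u : Fin D → ZMod p) : (pol p u).natDegree = D := by
  apply Polynomial.natDegree_eq_of_degree_eq_some
  unfold pol
  rw [Polynomial.degree_add_eq_left_of_degree_lt, Polynomial.degree_X_pow]
  rw [Polynomial.degree_X_pow]
  exact deg_low p u

/-- Weil's bound -/
lemma weil (hp : p ≠ 2) {g : ℕ} (u : Fin (2 * g + 1) → ZMod p) :
    |(∑ x : ZMod p, (quadraticChar (ZMod p) (val (ZMod p) (2 * g + 1) u x) : ℝ)) /
      Real.sqrt (Fintype.card (ZMod p))| ≤ 2 * g := by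
  have hp' : p.Prime := Fact.out
  have hchar : ringChar (ZMod p) ≠ 2 := by
    rw [ZMod.ringChar_zmod_n]
    exact hp
  have h1 := Pool.Agent.H341R2.Sharp.weil_sharp_monic hchar (pol_monic p u) (by rw [pol_natDegree]; omega) (by
    intro c h hc
    have h2 := pol_natDegree p u
    have h3 : pol p u ≠ 0 := (pol_monic p u).ne_zero
    have hc0 : c ≠ 0 := by
      rintro rfl
      rw [Polynomial.C_0, zero_mul] at hc
      exact h3 hc
    rw [hc, Polynomial.natDegree_C_mul hc0, Polynomial.natDegree_pow] at h2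
    omega)
  simp only [pol_eval, pol_natDegree] at h1
  have hq : (0 : ℝ) < Real.sqrt (Fintype.card (ZMod p)) := by
    apply Real.sqrt_pos.2
    rw [ZMod.card]
    exact_mod_cast hp'.pos
  rw [abs_div, abs_of_pos hq, div_le_iff₀ hq]
  refine h1.trans (le_of_eq ?_)
  push_cast
  ring

/-- there are few polynomials which are not separable -/
lemma bad_fiber {g : ℕ} (hpg : 2 * g + 1 < p) (w : Fin (2 * g) → ZMod p) :
    {z : ZMod p | ¬ (pol p (D := 2 * g + 1) (Fin.cons z w)).Separable}.ncard ≤ 2 * g + 1 := by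
  classical
  obtain ⟨h, hh⟩ : ∃ h : Polynomial (ZMod p), h = pol p (D := 2 * g + 1) (Fin.cons 0 w) := ⟨_, rfl⟩
  have hz : ∀ z : ZMod p, pol p (D := 2 * g + 1) (Fin.cons z w) = h + Polynomial.C z := by
    intro z
    rw [hh]
    unfold pol
    rw [Fin.sum_univ_succ, Fin.sum_univ_succ (f := fun i => Polynomial.C ((Fin.cons 0 w : Fin (2 * g + 1) → ZMod p) i) * Polynomial.X ^ (i : ℕ))]
    simp only [Fin.cons_zero, Fin.cons_succ, Fin.val_zero, pow_zero, mul_one, Polynomial.C_0, zero_add]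
    ring
  have hd : ∀ z : ZMod p, (pol p (D := 2 * g + 1) (Fin.cons z w)).derivative = h.derivative := by
    intro z
    rw [hz, Polynomial.derivative_add, Polynomial.derivative_C, add_zero]
  have hd0 : h.derivative ≠ 0 := by
    intro h0
    have h1 := congrArg (fun f => f.coeff (2 * g)) h0
    simp only [Polynomial.coeff_derivative, Polynomial.coeff_zero] at h1
    have h2 : h.coeff (2 * g + 1) = 1 := by
      have h3 := pol_monic p (D := 2 * g + 1) (Fin.cons 0 w)
      rw [← hh] at h3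
      have h4 := h3.coeff_natDegree
      have h5 := pol_natDegree p (D := 2 * g + 1) (Fin.cons 0 w)
      rw [← hh] at h5
      rwa [h5] at h4
    rw [h2, one_mul] at h1
    have h6 : (((2 * g + 1 : ℕ)) : ZMod p) = 0 := by
      push_cast
      push_cast at h1
      exact h1
    rw [ZMod.natCast_eq_zero_iff] at h6
    have := Nat.le_of_dvd (by omega) h6
    omega
  have hdeg : h.derivative.natDegree ≤ 2 * g + 1 := by
    have h1 := Polynomial.natDegree_derivative_le h
    have h5 := pol_natDegree p (D := 2 * g + 1) (Fin.cons 0 w)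
    rw [← hh] at h5
    omega
  obtain ⟨R, hR⟩ : ∃ R : Finset (AlgebraicClosure (ZMod p)), R = (h.derivative.aroots (AlgebraicClosure (ZMod p))).toFinset := ⟨_, rfl⟩
  have hRc : R.card ≤ 2 * g + 1 := by
    rw [hR]
    refine (Multiset.toFinset_card_le _).trans ?_
    refine (Polynomial.card_roots' _).trans ?_
    refine (Polynomial.natDegree_map_le).trans hdeg
  have hsub : (algebraMap (ZMod p) (AlgebraicClosure (ZMod p))) '' {z : ZMod p | ¬ (pol p (D := 2 * g + 1) (Fin.cons z w)).Separable} ⊆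
      ((R.image (fun β => -(Polynomial.aeval β h)) : Finset (AlgebraicClosure (ZMod p))) : Set (AlgebraicClosure (ZMod p))) := by
    rintro _ ⟨z, hz1, rfl⟩
    rw [Set.mem_ofPred_eq] at hz1
    unfold Polynomial.Separable at hz1
    rw [Polynomial.isCoprime_iff_aeval_ne_zero_of_isAlgClosed (ZMod p) (AlgebraicClosure (ZMod p))] at hz1
    push Not at hz1
    obtain ⟨β, h1, h2⟩ := hz1
    rw [hd] at h2
    rw [hz, map_add, Polynomial.aeval_C] at h1
    rw [coe_image]
    refine ⟨β, ?_, ?_⟩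
    · rw [hR, mem_coe, Multiset.mem_toFinset, Polynomial.mem_aroots]
      exact ⟨hd0, h2⟩
    · exact (eq_neg_of_add_eq_zero_right h1).symm
  rw [← Set.ncard_image_of_injective _ (algebraMap (ZMod p) (AlgebraicClosure (ZMod p))).injective]
  refine (Set.ncard_le_ncard hsub (finite_toSet _)).trans ?_
  rw [Set.ncard_coe_finset]
  exact card_image_le.trans hRc

open Classical in
lemma bad_card {g : ℕ} (hpg : 2 * g + 1 < p) :
    ((univ : Finset (Fin (2 * g + 1) → ZMod p)).filter (fun u => ¬ (pol p u).Separable)).card ≤ (2 * g + 1) * p ^ (2 * g) := by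
  have h1 : ((univ : Finset (Fin (2 * g + 1) → ZMod p)).filter (fun u => ¬ (pol p u).Separable)).card =
      ∑ w : Fin (2 * g) → ZMod p, ((univ : Finset (ZMod p)).filter (fun z => ¬ (pol p (D := 2 * g + 1) (Fin.cons z w)).Separable)).card := by
    rw [card_filter]
    simp only [card_filter]
    rw [sum_comm, ← Fintype.sum_prod_type' (f := fun (z : ZMod p) (w : Fin (2 * g) → ZMod p) =>
      if ¬ (pol p (D := 2 * g + 1) (Fin.cons z w)).Separable then 1 else 0)]
    refine (Fintype.sum_equiv (Fin.consEquiv (fun _ : Fin (2 * g + 1) => ZMod p)) _ _ ?_).symm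
    intro x
    rfl
  rw [h1]
  have h2 : ∀ w : Fin (2 * g) → ZMod p,
      ((univ : Finset (ZMod p)).filter (fun z => ¬ (pol p (D := 2 * g + 1) (Fin.cons z w)).Separable)).card ≤ 2 * g + 1 := by
    intro w
    refine le_trans (le_of_eq ?_) (bad_fiber p hpg w)
    rw [← Set.ncard_coe_finset]
    congr 1
    ext z
    simp
  refine (sum_le_sum fun w _ => h2 w).trans (le_of_eq ?_)
  rw [sum_const, card_univ, Fintype.card_pi_const, ZMod.card, smul_eq_mul]
  ring

/-- sums over the vectors of residues -/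
lemma sum_box {D : ℕ} (F : (Fin D → ZMod p) → ℝ) :
    ∑ n ∈ Pool.Agent.TH894.NE.box D p, F (fun i => (n i : ZMod p)) = ∑ u : Fin D → ZMod p, F u := by
  have hp' : p.Prime := Fact.out
  haveI : NeZero p := ⟨hp'.ne_zero⟩
  refine sum_nbij' (fun n i => (n i : ZMod p)) (fun u i => (u i).val) ?_ ?_ ?_ ?_ ?_
  · intro n _
    exact mem_univ _
  · intro u _
    rw [Pool.Agent.TH894.NE.mem_box]
    intro i
    exact ZMod.val_lt (u i)
  · intro n hn
    rw [Pool.Agent.TH894.NE.mem_box] at hn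
    funext i
    show ((n i : ZMod p)).val = n i
    rw [ZMod.val_natCast, Nat.mod_eq_of_lt (hn i)]
  · intro u _
    funext i
    show (((u i).val : ℕ) : ZMod p) = u i
    exact ZMod.natCast_zmod_val (u i)
  · intro n _
    rfl

end One

open Classical in
/-- the normalised character sum, `0` if the polynomial is not separable modulo `p` or `p = 2` -/
noncomputable def tr (g p : ℕ) (n : Fin (2 * g + 1) → ℕ) : ℝ :=
  if h : p.Prime ∧ p ≠ 2 then
    haveI : Fact p.Prime := ⟨h.1⟩
    if (pol p (fun i => (n i : ZMod p))).Separable then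
      (∑ x : ZMod p, (quadraticChar (ZMod p) (val (ZMod p) (2 * g + 1) (fun i => (n i : ZMod p)) x) : ℝ)) / Real.sqrt (Fintype.card (ZMod p))
    else 0
  else 0

theorem tr_mod (g p : ℕ) (n : Fin (2 * g + 1) → ℕ) : tr g p n = tr g p (fun i => n i % p) := by
  unfold tr
  by_cases h : p.Prime ∧ p ≠ 2
  · rw [dif_pos h, dif_pos h]
    have e : (fun i => ((n i % p : ℕ) : ZMod p)) = fun i => ((n i : ℕ) : ZMod p) := by
      funext i
      rw [ZMod.natCast_mod]
    rw [e]
  · rw [dif_neg h, dif_neg h]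

theorem tr_le (g p : ℕ) (n : Fin (2 * g + 1) → ℕ) : |tr g p n| ≤ 2 * g := by
  unfold tr
  split_ifs with h h1
  · haveI : Fact p.Prime := ⟨h.1⟩
    exact weil p h.2 _
  · rw [abs_zero]
    positivity
  · rw [abs_zero]
    positivity

/-- the local moments -/
theorem tr_mean (g m : ℕ) (hm : m ≤ 2 * g + 3) : ∃ C : ℝ, 0 ≤ C ∧ ∀ p : ℕ, p.Prime →
    |Pool.Agent.TH894.NE.mean (2 * g + 1) p (fun n => tr g p n ^ m) - usp g m| ≤ C / p := by
  classical
  rcases Nat.eq_zero_or_pos m with hm0 | hm0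
  · refine ⟨0, le_rfl, fun p hp => ?_⟩
    have h1 : usp g m = 1 := by
      rw [hm0]
      unfold usp normal
      simp
    have h2 : Pool.Agent.TH894.NE.mean (2 * g + 1) p (fun n => tr g p n ^ m) = 1 := by
      rw [hm0]
      simp only [pow_zero]
      exact Pool.Agent.TH894.NE.mean_const _ p hp.pos 1
    rw [h1, h2]
    simp
  obtain ⟨C, hC0, hC⟩ := Pool.Agent.Y57.FD.Mom.main2 g m hm
  obtain ⟨E, hE⟩ : ∃ E : ℝ, E = ((2 * g + 1 : ℝ) ^ m + |usp g m|) * (2 * g + 2) + C + (2 * g + 1 : ℝ) ^ m * (2 * g + 1) := ⟨_, rfl⟩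
  have hmean : ∀ p : ℕ, p.Prime → |Pool.Agent.TH894.NE.mean (2 * g + 1) p (fun n => tr g p n ^ m)| ≤ (2 * g + 1 : ℝ) ^ m := by
    intro p hp
    have hp0 : (0 : ℝ) < p := by exact_mod_cast hp.pos
    unfold Pool.Agent.TH894.NE.mean
    rw [abs_mul, abs_of_pos (by positivity : (0 : ℝ) < 1 / (p : ℝ) ^ (2 * g + 1)), div_mul_eq_mul_div, one_mul,
      div_le_iff₀ (by positivity)]
    refine (abs_sum_le_sum_abs _ _).trans ((sum_le_sum (g := fun _ => (2 * g + 1 : ℝ) ^ m) fun n _ => ?_).trans ?_)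
    · rw [abs_pow]
      exact pow_le_pow_left₀ (abs_nonneg _) ((tr_le g p n).trans (by linarith)) m
    rw [sum_const, Pool.Agent.TH894.NE.card_box, nsmul_eq_mul]
    push_cast
    rw [mul_comm]
  refine ⟨E, ?_, fun p hp => ?_⟩
  · rw [hE]
    positivity
  · have hp0 : (0 : ℝ) < p := by exact_mod_cast hp.pos
    haveI : Fact p.Prime := ⟨hp⟩
    by_cases hbig : 2 * g + 1 < p ∧ p ≠ 2
    · obtain ⟨hpg, hp2⟩ := hbig
      have hchar : ringChar (ZMod p) ≠ 2 := by
        rw [ZMod.ringChar_zmod_n]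
        exact hp2
      have h1 := hC (ZMod p) hchar
      rw [ZMod.card] at h1
      obtain ⟨S, hS⟩ : ∃ S : (Fin (2 * g + 1) → ZMod p) → ℝ, S = fun u => (∑ x : ZMod p, (quadraticChar (ZMod p)
        (val (ZMod p) (2 * g + 1) u x) : ℝ)) / Real.sqrt (Fintype.card (ZMod p)) := ⟨_, rfl⟩
      have hSw : ∀ u, |S u| ≤ 2 * g := by
        intro u
        rw [hS]
        exact weil p hp2 u
      have e1 : Pool.Agent.TH894.NE.mean (2 * g + 1) p (fun n => tr g p n ^ m) =
          (∑ u : Fin (2 * g + 1) → ZMod p, (if (pol p u).Separable then S u ^ m else 0)) / (p : ℝ) ^ (2 * g + 1) := by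
        unfold Pool.Agent.TH894.NE.mean
        rw [← sum_box p (fun u => if (pol p u).Separable then S u ^ m else 0), one_div, inv_mul_eq_div]
        congr 1
        apply sum_congr rfl
        intro n _
        show tr g p n ^ m = _
        unfold tr
        rw [dif_pos ⟨hp, hp2⟩]
        by_cases h2 : (pol p (fun i => (n i : ZMod p))).Separable
        · rw [if_pos h2, if_pos h2, hS]
        · rw [if_neg h2, if_neg h2, zero_pow (by omega)]
      have e2 : (∑ u : Fin (2 * g + 1) → ZMod p, (if (pol p u).Separable then S u ^ m else 0)) =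
          ∑ u : Fin (2 * g + 1) → ZMod p, S u ^ m -
            ∑ u ∈ (univ : Finset (Fin (2 * g + 1) → ZMod p)).filter (fun u => ¬ (pol p u).Separable), S u ^ m := by
        rw [← sum_filter_add_sum_filter_not univ (fun u => (pol p u).Separable) (fun u => S u ^ m), add_sub_cancel_right, sum_filter]
      have e3 : |∑ u ∈ (univ : Finset (Fin (2 * g + 1) → ZMod p)).filter (fun u => ¬ (pol p u).Separable), S u ^ m| ≤
          (2 * g + 1 : ℝ) ^ m * ((2 * g + 1) * (p : ℝ) ^ (2 * g)) := by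
        refine (abs_sum_le_sum_abs _ _).trans ?_
        have h3 : ∀ u ∈ (univ : Finset (Fin (2 * g + 1) → ZMod p)).filter (fun u => ¬ (pol p u).Separable), |S u ^ m| ≤ (2 * g + 1 : ℝ) ^ m := by
          intro u _
          rw [abs_pow]
          exact pow_le_pow_left₀ (abs_nonneg _) ((hSw u).trans (by linarith)) m
        refine (sum_le_sum h3).trans ?_
        rw [sum_const, nsmul_eq_mul, mul_comm]
        apply mul_le_mul_of_nonneg_left _ (by positivity)
        have h4 := bad_card p (g := g) hpg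
        have h5 : ((((univ : Finset (Fin (2 * g + 1) → ZMod p)).filter (fun u => ¬ (pol p u).Separable)).card : ℕ) : ℝ) ≤
            (((2 * g + 1) * p ^ (2 * g) : ℕ) : ℝ) := by
          exact_mod_cast h4
        push_cast at h5
        exact h5
      have hS2 : ∑ u : Fin (2 * g + 1) → ZMod p, S u ^ m = ∑ u : Fin (2 * g + 1) → ZMod p, ((∑ x : ZMod p, (quadraticChar (ZMod p)
        (val (ZMod p) (2 * g + 1) u x) : ℝ)) / Real.sqrt (p : ℝ)) ^ m := by
        rw [hS]
        simp only [ZMod.card]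
      rw [e1, e2, sub_div, hS2]
      have h6 : |(∑ u ∈ (univ : Finset (Fin (2 * g + 1) → ZMod p)).filter (fun u => ¬ (pol p u).Separable), S u ^ m) /
          (p : ℝ) ^ (2 * g + 1)| ≤ (2 * g + 1 : ℝ) ^ m * (2 * g + 1) / p := by
        rw [abs_div, abs_of_pos (by positivity : (0 : ℝ) < (p : ℝ) ^ (2 * g + 1)), div_le_iff₀ (by positivity)]
        refine e3.trans (le_of_eq ?_)
        rw [pow_succ (p : ℝ) (2 * g)]
        field_simp
      have h7 : E / p = ((2 * g + 1 : ℝ) ^ m + |usp g m|) * (2 * g + 2) / p + C / p + (2 * g + 1 : ℝ) ^ m * (2 * g + 1) / p := by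
        rw [hE]
        ring
      have h8 : 0 ≤ ((2 * g + 1 : ℝ) ^ m + |usp g m|) * (2 * g + 2) / p := by positivity
      rw [h7]
      obtain ⟨X, hX⟩ : ∃ X : ℝ, X = (∑ u : Fin (2 * g + 1) → ZMod p, ((∑ x : ZMod p, (quadraticChar (ZMod p)
        (val (ZMod p) (2 * g + 1) u x) : ℝ)) / Real.sqrt (p : ℝ)) ^ m) / (p : ℝ) ^ (2 * g + 1) := ⟨_, rfl⟩
      obtain ⟨Y, hY⟩ : ∃ Y : ℝ, Y = (∑ u ∈ (univ : Finset (Fin (2 * g + 1) → ZMod p)).filter (fun u => ¬ (pol p u).Separable), S u ^ m) /
          (p : ℝ) ^ (2 * g + 1) := ⟨_, rfl⟩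
      rw [← hX] at h1 ⊢
      rw [← hY] at h6 ⊢
      have h9 : |X - Y - usp g m| ≤ |X - usp g m| + |Y| := by
        have := abs_sub (X - usp g m) Y
        rwa [show X - usp g m - Y = X - Y - usp g m by ring] at this
      linarith
    · have hsmall : (p : ℝ) ≤ 2 * g + 2 := by
        have : p ≤ 2 * g + 2 := by
          by_contra hcon
          apply hbig
          omega
        exact_mod_cast this
      have h1 : |Pool.Agent.TH894.NE.mean (2 * g + 1) p (fun n => tr g p n ^ m) - usp g m| ≤ (2 * g + 1 : ℝ) ^ m + |usp g m| :=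
        (abs_sub _ _).trans (add_le_add (hmean p hp) le_rfl)
      refine h1.trans ?_
      rw [le_div_iff₀ hp0, hE]
      have h2 : ((2 * g + 1 : ℝ) ^ m + |usp g m|) * p ≤ ((2 * g + 1 : ℝ) ^ m + |usp g m|) * (2 * g + 2) :=
        mul_le_mul_of_nonneg_left hsmall (by positivity)
      have h3 : 0 ≤ (2 * g + 1 : ℝ) ^ m * (2 * g + 1) := by positivity
      linarith

/-- polynomials in the normalised trace -/
theorem mean_pol (g : ℕ) (c : ℕ → ℝ) : ∃ C : ℝ, 0 ≤ C ∧ ∀ p : ℕ, p.Prime →
    |Pool.Agent.TH894.NE.mean (2 * g + 1) p (fun n => ∑ m ∈ range (2 * g + 4), c m * tr g p n ^ m) -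
      ∑ m ∈ range (2 * g + 4), c m * usp g m| ≤ C / p := by
  have hch : ∀ m : ℕ, ∃ C : ℝ, 0 ≤ C ∧ (m ∈ range (2 * g + 4) → ∀ p : ℕ, p.Prime →
      |Pool.Agent.TH894.NE.mean (2 * g + 1) p (fun n => tr g p n ^ m) - usp g m| ≤ C / p) := by
    intro m
    by_cases hm : m ∈ range (2 * g + 4)
    · obtain ⟨C, hC0, hC⟩ := tr_mean g m (by rw [mem_range] at hm; omega)
      exact ⟨C, hC0, fun _ => hC⟩
    · exact ⟨0, le_rfl, fun h => absurd h hm⟩
  choose C hC0 hC using hch
  refine ⟨∑ m ∈ range (2 * g + 4), |c m| * C m, sum_nonneg fun m _ => mul_nonneg (abs_nonneg _) (hC0 m), fun p hp => ?_⟩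
  have h1 : Pool.Agent.TH894.NE.mean (2 * g + 1) p (fun n => ∑ m ∈ range (2 * g + 4), c m * tr g p n ^ m) =
      ∑ m ∈ range (2 * g + 4), c m * Pool.Agent.TH894.NE.mean (2 * g + 1) p (fun n => tr g p n ^ m) := by
    unfold Pool.Agent.TH894.NE.mean
    rw [sum_comm, mul_sum]
    apply sum_congr rfl
    intro m _
    rw [← mul_sum]
    ring
  rw [h1, ← sum_sub_distrib, sum_div]
  refine (abs_sum_le_sum_abs _ _).trans (sum_le_sum fun m hm => ?_)
  rw [← mul_sub, abs_mul, mul_div_assoc]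
  exact mul_le_mul_of_nonneg_left (hC m hm p hp) (abs_nonneg _)

end Pool.Agent.Y57.FD.HM
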