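import Mathlib

/-!
# Moments of the character sums of random monic polynomials over a finite field

`moment_eq`: the moments up to the order `D` of `∑ χ(f(x))` for the random monic polynomial `f` of degree `D` are the moments of the
sum of `q` independent values of `χ`; `growth`: they are asymptotically the moments of a normal variable.
-/

set_option autoImplicit false

namespace Pool.Agent.Y57.FD.Mom

open Finset

section Mean

variable {G H : Type} [AddGroup G] [AddGroup H] [Fintype G] [Fintype H]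

theorem mean_hom (φ : G →+ H) (hφ : Function.Surjective φ) (F : H → ℝ) :
    (∑ g, F (φ g)) / (Fintype.card G : ℝ) = (∑ h, F h) / (Fintype.card H : ℝ) := by
  classical
  obtain ⟨c, hc⟩ : ∃ c : ℕ, c = (univ.filter (fun g => φ g = 0)).card := ⟨_, rfl⟩
  have hfib : ∀ h : H, (univ.filter (fun g => φ g = h)).card = c := by
    intro h
    rw [hc]
    exact AddMonoidHom.card_fiber_eq_of_mem_range φ (hφ h) ⟨0, map_zero φ⟩
  have h1 : ∑ g, F (φ g) = (c : ℝ) * ∑ h, F h := by
    rw [mul_sum, ← sum_fiberwise_of_maps_to (s := univ) (t := univ) (g := φ) (fun _ _ => mem_univ _)]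
    apply sum_congr rfl
    intro h _
    rw [sum_congr rfl (g := fun _ => F h) (fun g hg => by rw [(mem_filter.1 hg).2]), sum_const, hfib, nsmul_eq_mul]
  have h2 : (Fintype.card G : ℝ) = (c : ℝ) * (Fintype.card H : ℝ) := by
    have h3 : (univ : Finset G).card = ∑ h : H, (univ.filter (fun g => φ g = h)).card :=
      card_eq_sum_card_fiberwise (fun _ _ => mem_univ _)
    rw [sum_congr rfl (fun h _ => hfib h), sum_const, card_univ, card_univ, smul_eq_mul] at h3
    rw [h3]
    push_cast
    ring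
  have hG : (0 : ℝ) < (Fintype.card G : ℝ) := by
    have : Nonempty G := ⟨0⟩
    exact_mod_cast Fintype.card_pos
  have hc0 : (c : ℝ) ≠ 0 := by
    intro h
    rw [h2, h, zero_mul] at hG
    exact lt_irrefl _ hG
  rw [h1, h2, mul_div_mul_left _ _ hc0]

end Mean

section Char

variable (K : Type) [Field K] [Fintype K] [DecidableEq K]

/-- moments of the sum of `N` independent values of the quadratic character -/
noncomputable def M (m N : ℕ) : ℝ :=
  (∑ w : Fin N → K, (∑ i, (quadraticChar K (w i) : ℝ)) ^ m) / (Fintype.card K : ℝ) ^ N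

/-- the mean of `χ ^ j` -/
noncomputable def e (j : ℕ) : ℝ := (∑ c : K, (quadraticChar K c : ℝ) ^ j) / (Fintype.card K : ℝ)

theorem M_zero (N : ℕ) : M K 0 N = 1 := by
  unfold M
  have hq : (0 : ℝ) < Fintype.card K := by exact_mod_cast Fintype.card_pos
  simp only [pow_zero, sum_const, card_univ, nsmul_eq_mul, mul_one, Fintype.card_pi_const]
  push_cast
  exact div_self (by positivity)

theorem M_N_zero (m : ℕ) (hm : 1 ≤ m) : M K m 0 = 0 := by
  unfold M
  simp [show m ≠ 0 by omega]

theorem M_succ (m N : ℕ) : M K m (N + 1) = ∑ j ∈ range (m + 1), (m.choose j : ℝ) * e K j * M K (m - j) N := by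
  have hq : (0 : ℝ) < Fintype.card K := by exact_mod_cast Fintype.card_pos
  unfold M e
  have h1 : (∑ w : Fin (N + 1) → K, (∑ i, (quadraticChar K (w i) : ℝ)) ^ m) =
      ∑ c : K, ∑ w : Fin N → K, ((quadraticChar K c : ℝ) + ∑ i, (quadraticChar K (w i) : ℝ)) ^ m := by
    rw [← Fintype.sum_prod_type' (f := fun (c : K) (w : Fin N → K) =>
      ((quadraticChar K c : ℝ) + ∑ i, (quadraticChar K (w i) : ℝ)) ^ m)]
    refine (Fintype.sum_equiv (Fin.consEquiv (fun _ : Fin (N + 1) => K)) _ _ ?_).symm
    intro x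
    rw [Fin.sum_univ_succ]
    simp [Fin.consEquiv]
  rw [h1]
  have h2 : ∀ (c : K) (w : Fin N → K), ((quadraticChar K c : ℝ) + ∑ i, (quadraticChar K (w i) : ℝ)) ^ m =
      ∑ j ∈ range (m + 1), (quadraticChar K c : ℝ) ^ j * (∑ i, (quadraticChar K (w i) : ℝ)) ^ (m - j) * (m.choose j : ℝ) := by
    intro c w
    rw [add_pow]
  simp only [h2]
  have h3 : ∑ c : K, ∑ w : Fin N → K, ∑ j ∈ range (m + 1),
      (quadraticChar K c : ℝ) ^ j * (∑ i, (quadraticChar K (w i) : ℝ)) ^ (m - j) * (m.choose j : ℝ) =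
      ∑ j ∈ range (m + 1), (m.choose j : ℝ) * (∑ c : K, (quadraticChar K c : ℝ) ^ j) *
        (∑ w : Fin N → K, (∑ i, (quadraticChar K (w i) : ℝ)) ^ (m - j)) := by
    rw [sum_congr rfl (fun c _ => sum_comm), sum_comm]
    apply sum_congr rfl
    intro j _
    rw [mul_assoc, sum_mul_sum, mul_sum]
    apply sum_congr rfl
    intro c _
    rw [mul_sum]
    apply sum_congr rfl
    intro w _
    ring
  rw [h3, sum_div]
  apply sum_congr rfl
  intro j _
  rw [pow_succ]
  field_simp

theorem e_zero : e K 0 = 1 := by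
  unfold e
  have hq : (0 : ℝ) < Fintype.card K := by exact_mod_cast Fintype.card_pos
  simp only [pow_zero, sum_const, card_univ, nsmul_eq_mul, mul_one]
  exact div_self hq.ne'

theorem chi_cases (c : K) : quadraticChar K c = 0 ∨ quadraticChar K c = 1 ∨ quadraticChar K c = -1 := by
  by_cases hc : c = 0
  · left
    rw [hc]
    exact MulChar.map_zero _
  · right
    exact quadraticChar_dichotomy hc

theorem e_odd (hK : ringChar K ≠ 2) (j : ℕ) (hj : Odd j) : e K j = 0 := by
  unfold e
  have h1 : ∀ c : K, (quadraticChar K c : ℝ) ^ j = (quadraticChar K c : ℝ) := by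
    intro c
    obtain ⟨k, hk⟩ := hj
    rcases chi_cases K c with h | h | h
    · rw [h, hk]
      simp
    · rw [h]
      simp
    · rw [h, hk]
      simp [pow_add, pow_mul]
  rw [sum_congr rfl (fun c _ => h1 c)]
  have h2 := quadraticChar_sum_zero (F := K) hK
  have h3 : ∑ c : K, (quadraticChar K c : ℝ) = 0 := by exact_mod_cast h2
  rw [h3, zero_div]

theorem e_even (j : ℕ) (hj : Even j) (hj0 : j ≠ 0) : e K j = 1 - 1 / (Fintype.card K : ℝ) := by
  have hq : (0 : ℝ) < Fintype.card K := by exact_mod_cast Fintype.card_pos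
  unfold e
  have h1 : ∀ c : K, (quadraticChar K c : ℝ) ^ j = 1 - (if c = 0 then 1 else 0) := by
    intro c
    by_cases hc : c = 0
    · rw [hc, MulChar.map_zero, if_pos rfl]
      simp [hj0]
    · rw [if_neg hc]
      rcases quadraticChar_dichotomy hc with h | h
      · rw [h]
        simp
      · rw [h]
        push_cast
        rw [hj.neg_one_pow]
        simp
  rw [sum_congr rfl (fun c _ => h1 c), sum_sub_distrib, sum_ite_eq' univ (0 : K) (fun _ => (1 : ℝ)), if_pos (mem_univ _), sum_const,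
    card_univ, nsmul_eq_mul, mul_one]
  field_simp

theorem M_odd (hK : ringChar K ≠ 2) (m : ℕ) (hm : Odd m) (N : ℕ) : M K m N = 0 := by
  induction N generalizing m with
  | zero => exact M_N_zero K m hm.pos
  | succ N ih =>
    rw [M_succ]
    apply sum_eq_zero
    intro j hj
    rw [mem_range] at hj
    rcases Nat.even_or_odd j with h | h
    · rw [ih (m - j) (Nat.Odd.sub_even (by omega) hm h), mul_zero]
    · rw [e_odd K hK j h, mul_zero, zero_mul]

end Char

section Growth

theorem pow_err (k : ℕ) : ∃ B : ℝ, 0 ≤ B ∧ ∀ (q : ℝ), 1 ≤ q → ∀ t : ℝ, 0 ≤ t → t ≤ q →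
    |(t + 1) ^ (k + 1) - t ^ (k + 1) - (k + 1) * t ^ k| ≤ B * q ^ (k + 1) / q ^ 2 := by
  induction k with
  | zero =>
    refine ⟨0, le_refl _, fun q hq t ht htq => ?_⟩
    simp
  | succ k ih =>
    obtain ⟨B, hB, h⟩ := ih
    refine ⟨2 * B + (k + 1), by positivity, fun q hq t ht htq => ?_⟩
    have hq0 : (0 : ℝ) < q := by linarith
    have h1 := h q hq t ht htq
    have e1 : (t + 1) ^ (k + 1 + 1) - t ^ (k + 1 + 1) - ((k + 1 : ℕ) + 1) * t ^ (k + 1) =
        (t + 1) * ((t + 1) ^ (k + 1) - t ^ (k + 1) - (k + 1) * t ^ k) + (k + 1) * t ^ k := by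
      push_cast
      ring
    rw [e1]
    have e2 : (2 * B + (k + 1)) * q ^ (k + 1 + 1) / q ^ 2 = 2 * q * (B * q ^ (k + 1) / q ^ 2) + (k + 1) * q ^ k := by
      field_simp
      ring
    rw [e2]
    refine (abs_add_le _ _).trans (add_le_add ?_ ?_)
    · rw [abs_mul, abs_of_nonneg (by linarith : (0 : ℝ) ≤ t + 1)]
      exact mul_le_mul (by linarith) h1 (abs_nonneg _) (by positivity)
    · rw [abs_of_nonneg (by positivity)]
      exact mul_le_mul_of_nonneg_left (pow_le_pow_left₀ ht htq k) (by positivity)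

theorem choose_dfac (k : ℕ) : ((2 * (k + 1)).choose 2 : ℝ) * (Nat.doubleFactorial (2 * k - 1) : ℝ) =
    (k + 1) * (Nat.doubleFactorial (2 * (k + 1) - 1) : ℝ) := by
  have h1 : ((2 * (k + 1)).choose 2 : ℝ) = (k + 1) * (2 * k + 1) := by
    rw [Nat.cast_choose_two]
    push_cast
    ring
  have h2 : Nat.doubleFactorial (2 * (k + 1) - 1) = (2 * k + 1) * Nat.doubleFactorial (2 * k - 1) := by
    rcases Nat.eq_zero_or_pos k with h0 | h0
    · rw [h0]
      rfl
    · obtain ⟨j, rfl⟩ : ∃ j, k = j + 1 := ⟨k - 1, by omega⟩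
      rw [show 2 * (j + 1 + 1) - 1 = (2 * j + 1) + 2 by omega, Nat.doubleFactorial_add_two,
        show 2 * (j + 1) - 1 = 2 * j + 1 by omega, show 2 * j + 1 + 2 = 2 * (j + 1) + 1 by omega]
  rw [h1, h2]
  push_cast
  ring

/-- the even moments are asymptotically the moments of a normal variable -/
theorem growth (k : ℕ) : ∃ C : ℝ, 0 ≤ C ∧ ∀ q : ℕ, 1 ≤ q → ∀ (A : ℕ → ℕ → ℝ) (e : ℕ → ℝ), (∀ N, A 0 N = 1) →
    (∀ m, 1 ≤ m → A m 0 = 0) → (∀ m N, A m (N + 1) = ∑ j ∈ range (m + 1), (m.choose j : ℝ) * e j * A (m - j) N) →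
    e 0 = 1 → (∀ j, Odd j → e j = 0) → (∀ j, Even j → j ≠ 0 → e j = 1 - 1 / (q : ℝ)) →
    ∀ N ≤ q, |A (2 * k) N - (Nat.doubleFactorial (2 * k - 1) : ℝ) * (N : ℝ) ^ k| ≤ C * (q : ℝ) ^ k / q := by
  induction k using Nat.strong_induction_on with
  | _ k ih =>
    rcases Nat.eq_zero_or_pos k with h0 | h0
    · refine ⟨0, le_refl _, fun q hq A e hA0 _ _ _ _ _ N _ => ?_⟩
      rw [h0]
      simp [hA0]
    · obtain ⟨k, rfl⟩ : ∃ j, k = j + 1 := ⟨k - 1, by omega⟩
      -- the constants for the smaller indices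
      have hch : ∀ j : ℕ, ∃ C : ℝ, 0 ≤ C ∧ (j < k + 1 → ∀ q : ℕ, 1 ≤ q → ∀ (A : ℕ → ℕ → ℝ) (e : ℕ → ℝ), (∀ N, A 0 N = 1) →
          (∀ m, 1 ≤ m → A m 0 = 0) → (∀ m N, A m (N + 1) = ∑ j ∈ range (m + 1), (m.choose j : ℝ) * e j * A (m - j) N) →
          e 0 = 1 → (∀ j, Odd j → e j = 0) → (∀ j, Even j → j ≠ 0 → e j = 1 - 1 / (q : ℝ)) →
          ∀ N ≤ q, |A (2 * j) N - (Nat.doubleFactorial (2 * j - 1) : ℝ) * (N : ℝ) ^ j| ≤ C * (q : ℝ) ^ j / q) := by
        intro j
        by_cases hj : j < k + 1
        · obtain ⟨C, hC, h⟩ := ih j hj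
          exact ⟨C, hC, fun _ => h⟩
        · exact ⟨0, le_refl _, fun h => absurd h hj⟩
      choose C hC0 hC using hch
      obtain ⟨B, hB, hBe⟩ := pow_err k
      -- a bound of all the smaller moments
      obtain ⟨D, hD⟩ : ∃ D : ℕ → ℝ, D = fun j => (Nat.doubleFactorial (2 * j - 1) : ℝ) + C j := ⟨_, rfl⟩
      have hD0 : ∀ j, 0 ≤ D j := by
        intro j
        rw [hD]
        have := hC0 j
        positivity
      refine ⟨(Nat.doubleFactorial (2 * (k + 1) - 1) : ℝ) * B + ((2 * (k + 1)).choose 2 : ℝ) * (C k + D k) +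
        ∑ i ∈ range (k + 1), ((2 * (k + 1)).choose (2 * (i + 2)) : ℝ) * D (k + 1 - (i + 2)), ?_, ?_⟩
      · have h1 := hC0 k
        have h2 := hD0 k
        have h3 : 0 ≤ ∑ i ∈ range (k + 1), ((2 * (k + 1)).choose (2 * (i + 2)) : ℝ) * D (k + 1 - (i + 2)) :=
          sum_nonneg fun i _ => mul_nonneg (by positivity) (hD0 _)
        positivity
      · intro q hq A e hA0 hA00 hrec he0 heo hee
        have hq1 : (1 : ℝ) ≤ q := by exact_mod_cast hq
        have hq0 : (0 : ℝ) < q := by linarith
        have hAb : ∀ j, j < k + 1 → ∀ N ≤ q, |A (2 * j) N| ≤ D j * (q : ℝ) ^ j := by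
          intro j hj N hN
          have h1 := hC j hj q hq A e hA0 hA00 hrec he0 heo hee N hN
          have hNq : (N : ℝ) ≤ q := by exact_mod_cast hN
          have h2 : (N : ℝ) ^ j ≤ (q : ℝ) ^ j := pow_le_pow_left₀ (Nat.cast_nonneg N) hNq j
          have h3 : C j * (q : ℝ) ^ j / q ≤ C j * (q : ℝ) ^ j := by
            apply div_le_self _ hq1
            have := hC0 j
            positivity
          have h4 : |A (2 * j) N| ≤ |A (2 * j) N - (Nat.doubleFactorial (2 * j - 1) : ℝ) * (N : ℝ) ^ j| +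
              |(Nat.doubleFactorial (2 * j - 1) : ℝ) * (N : ℝ) ^ j| := by
            have := abs_add_le (A (2 * j) N - (Nat.doubleFactorial (2 * j - 1) : ℝ) * (N : ℝ) ^ j)
              ((Nat.doubleFactorial (2 * j - 1) : ℝ) * (N : ℝ) ^ j)
            rwa [sub_add_cancel] at this
          have h5 : |(Nat.doubleFactorial (2 * j - 1) : ℝ) * (N : ℝ) ^ j| ≤ (Nat.doubleFactorial (2 * j - 1) : ℝ) * (q : ℝ) ^ j := by
            rw [abs_of_nonneg (by positivity)]
            exact mul_le_mul_of_nonneg_left h2 (by positivity)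
          rw [hD]
          show |A (2 * j) N| ≤ ((Nat.doubleFactorial (2 * j - 1) : ℝ) + C j) * (q : ℝ) ^ j
          rw [add_mul]
          linarith
        obtain ⟨E, hE⟩ : ∃ E : ℝ, E = (Nat.doubleFactorial (2 * (k + 1) - 1) : ℝ) * B + ((2 * (k + 1)).choose 2 : ℝ) * (C k + D k) +
          ∑ i ∈ range (k + 1), ((2 * (k + 1)).choose (2 * (i + 2)) : ℝ) * D (k + 1 - (i + 2)) := ⟨_, rfl⟩
        rw [← hE]
        -- the increments
        have hinc : ∀ N ≤ q, |A (2 * (k + 1)) (N + 1) - A (2 * (k + 1)) N -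
            (Nat.doubleFactorial (2 * (k + 1) - 1) : ℝ) * (((N : ℝ) + 1) ^ (k + 1) - (N : ℝ) ^ (k + 1))| ≤ E * (q : ℝ) ^ (k + 1) / q ^ 2 := by
          intro N hN
          have hNq : (N : ℝ) ≤ q := by exact_mod_cast hN
          -- only the even j occur
          have h1 : A (2 * (k + 1)) (N + 1) = ∑ i ∈ range (k + 2), ((2 * (k + 1)).choose (2 * i) : ℝ) * e (2 * i) * A (2 * (k + 1 - i)) N := by
            rw [hrec]
            have h2 : ∑ i ∈ range (k + 2), ((2 * (k + 1)).choose (2 * i) : ℝ) * e (2 * i) * A (2 * (k + 1 - i)) N =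
                ∑ j ∈ (range (k + 2)).image (fun i => 2 * i), ((2 * (k + 1)).choose j : ℝ) * e j * A (2 * (k + 1) - j) N := by
              rw [sum_image (by intro a _ b _ h; simpa using h)]
              apply sum_congr rfl
              intro i _
              rw [Nat.mul_sub]
            rw [h2]
            symm
            apply sum_subset
            · intro j hj
              obtain ⟨i, hi, rfl⟩ := mem_image.1 hj
              rw [mem_range] at hi ⊢
              omega
            · intro j hj hj2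
              have : Odd j := by
                rw [← Nat.not_even_iff_odd]
                intro hev
                obtain ⟨i, hi⟩ := hev
                apply hj2
                rw [mem_range] at hj
                exact mem_image.2 ⟨i, mem_range.2 (by omega), by omega⟩
              rw [heo j this]
              ring
          rw [h1, sum_range_succ']
          have h3 : ((2 * (k + 1)).choose (2 * 0) : ℝ) * e (2 * 0) * A (2 * (k + 1 - 0)) N = A (2 * (k + 1)) N := by
            rw [mul_zero, Nat.choose_zero_right, he0, Nat.sub_zero]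
            simp
          rw [h3, add_sub_cancel_right, sum_range_succ']
          simp only [zero_add, mul_one, Nat.add_sub_cancel]
          -- the term with j = 2
          have h4 := hC k (by omega) q hq A e hA0 hA00 hrec he0 heo hee N hN
          have h5 := hAb k (by omega) N hN
          have h6 := hBe q hq1 N (Nat.cast_nonneg N) hNq
          rw [hee 2 even_two (by norm_num)]
          have h7 : (((2 * (k + 1)).choose 2 : ℝ)) * (1 - 1 / (q : ℝ)) * A (2 * k) N -
              (Nat.doubleFactorial (2 * (k + 1) - 1) : ℝ) * (((N : ℝ) + 1) ^ (k + 1) - (N : ℝ) ^ (k + 1)) =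
              ((2 * (k + 1)).choose 2 : ℝ) * (A (2 * k) N - (Nat.doubleFactorial (2 * k - 1) : ℝ) * (N : ℝ) ^ k) -
              ((2 * (k + 1)).choose 2 : ℝ) * (A (2 * k) N / q) -
              (Nat.doubleFactorial (2 * (k + 1) - 1) : ℝ) * (((N : ℝ) + 1) ^ (k + 1) - (N : ℝ) ^ (k + 1) - (k + 1) * (N : ℝ) ^ k) := by
            have h8 := choose_dfac k
            linear_combination ((N : ℝ) ^ k) * h8
          have h9 : ((2 * (k + 1)).choose 2 : ℝ) * |A (2 * k) N - (Nat.doubleFactorial (2 * k - 1) : ℝ) * (N : ℝ) ^ k| ≤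
              ((2 * (k + 1)).choose 2 : ℝ) * (C k * (q : ℝ) ^ (k + 1) / q ^ 2) := by
            apply mul_le_mul_of_nonneg_left _ (by positivity)
            refine h4.trans (le_of_eq ?_)
            field_simp
            ring
          have h10 : ((2 * (k + 1)).choose 2 : ℝ) * |A (2 * k) N / q| ≤ ((2 * (k + 1)).choose 2 : ℝ) * (D k * (q : ℝ) ^ (k + 1) / q ^ 2) := by
            apply mul_le_mul_of_nonneg_left _ (by positivity)
            rw [abs_div, abs_of_pos hq0, div_le_iff₀ hq0]
            refine h5.trans (le_of_eq ?_)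
            field_simp
            ring
          have h11 : (Nat.doubleFactorial (2 * (k + 1) - 1) : ℝ) *
              |((N : ℝ) + 1) ^ (k + 1) - (N : ℝ) ^ (k + 1) - (k + 1) * (N : ℝ) ^ k| ≤
              (Nat.doubleFactorial (2 * (k + 1) - 1) : ℝ) * (B * (q : ℝ) ^ (k + 1) / q ^ 2) :=
            mul_le_mul_of_nonneg_left h6 (by positivity)
          -- the other terms
          have h12 : |∑ i ∈ range k, ((2 * (k + 1)).choose (2 * (i + 1 + 1)) : ℝ) * e (2 * (i + 1 + 1)) * A (2 * (k + 1 - (i + 1 + 1))) N| ≤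
              (∑ i ∈ range (k + 1), ((2 * (k + 1)).choose (2 * (i + 2)) : ℝ) * D (k + 1 - (i + 2))) * (q : ℝ) ^ (k + 1) / q ^ 2 := by
            have h13 : ∀ i ∈ range k, |((2 * (k + 1)).choose (2 * (i + 1 + 1)) : ℝ) * e (2 * (i + 1 + 1)) * A (2 * (k + 1 - (i + 1 + 1))) N| ≤
                ((2 * (k + 1)).choose (2 * (i + 2)) : ℝ) * D (k + 1 - (i + 2)) * ((q : ℝ) ^ (k + 1) / q ^ 2) := by
              intro i hi
              rw [mem_range] at hi
              rw [abs_mul, abs_mul, hee (2 * (i + 1 + 1)) (even_two_mul _) (by omega), Nat.abs_cast]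
              have h14 : |1 - 1 / (q : ℝ)| ≤ 1 := by
                rw [abs_le]
                have h15 : 0 ≤ 1 / (q : ℝ) := by positivity
                have h16 : 1 / (q : ℝ) ≤ 1 := by
                  rw [div_le_one hq0]
                  exact hq1
                constructor <;> linarith
              have h17 := hAb (k + 1 - (i + 2)) (by omega) N hN
              have h18 : (q : ℝ) ^ (k + 1 - (i + 2)) ≤ (q : ℝ) ^ (k + 1) / q ^ 2 := by
                rw [le_div_iff₀ (by positivity), ← pow_add]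
                exact pow_le_pow_right₀ hq1 (by omega)
              calc ((2 * (k + 1)).choose (2 * (i + 1 + 1)) : ℝ) * |1 - 1 / (q : ℝ)| * |A (2 * (k + 1 - (i + 1 + 1))) N|
                  ≤ ((2 * (k + 1)).choose (2 * (i + 2)) : ℝ) * 1 * (D (k + 1 - (i + 2)) * (q : ℝ) ^ (k + 1 - (i + 2))) := by
                    apply mul_le_mul _ h17 (abs_nonneg _) (by positivity)
                    exact mul_le_mul_of_nonneg_left h14 (by positivity)
                _ ≤ ((2 * (k + 1)).choose (2 * (i + 2)) : ℝ) * 1 * (D (k + 1 - (i + 2)) * ((q : ℝ) ^ (k + 1) / q ^ 2)) := by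
                    apply mul_le_mul_of_nonneg_left _ (by positivity)
                    exact mul_le_mul_of_nonneg_left h18 (hD0 _)
                _ = _ := by ring
            refine (abs_sum_le_sum_abs _ _).trans ((sum_le_sum h13).trans ?_)
            rw [← sum_mul, mul_div_assoc]
            apply mul_le_mul_of_nonneg_right _ (by positivity)
            apply sum_le_sum_of_subset_of_nonneg
            · intro i hi
              rw [mem_range] at hi ⊢
              omega
            · intro i _ _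
              exact mul_nonneg (by positivity) (hD0 _)
          rw [add_sub_assoc, h7, hE]
          have h20 : ((Nat.doubleFactorial (2 * (k + 1) - 1) : ℝ) * B + ((2 * (k + 1)).choose 2 : ℝ) * (C k + D k) +
              ∑ i ∈ range (k + 1), ((2 * (k + 1)).choose (2 * (i + 2)) : ℝ) * D (k + 1 - (i + 2))) * (q : ℝ) ^ (k + 1) / q ^ 2 =
              (Nat.doubleFactorial (2 * (k + 1) - 1) : ℝ) * (B * (q : ℝ) ^ (k + 1) / q ^ 2) +
              ((2 * (k + 1)).choose 2 : ℝ) * (C k * (q : ℝ) ^ (k + 1) / q ^ 2) +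
              ((2 * (k + 1)).choose 2 : ℝ) * (D k * (q : ℝ) ^ (k + 1) / q ^ 2) +
              (∑ i ∈ range (k + 1), ((2 * (k + 1)).choose (2 * (i + 2)) : ℝ) * D (k + 1 - (i + 2))) * (q : ℝ) ^ (k + 1) / q ^ 2 := by
            ring
          rw [h20]
          refine (abs_add_le _ _).trans ?_
          have h21 : |((2 * (k + 1)).choose 2 : ℝ) * (A (2 * k) N - (Nat.doubleFactorial (2 * k - 1) : ℝ) * (N : ℝ) ^ k) -
              ((2 * (k + 1)).choose 2 : ℝ) * (A (2 * k) N / q) -
              (Nat.doubleFactorial (2 * (k + 1) - 1) : ℝ) * (((N : ℝ) + 1) ^ (k + 1) - (N : ℝ) ^ (k + 1) - (k + 1) * (N : ℝ) ^ k)| ≤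
              ((2 * (k + 1)).choose 2 : ℝ) * |A (2 * k) N - (Nat.doubleFactorial (2 * k - 1) : ℝ) * (N : ℝ) ^ k| +
              ((2 * (k + 1)).choose 2 : ℝ) * |A (2 * k) N / q| +
              (Nat.doubleFactorial (2 * (k + 1) - 1) : ℝ) *
              |((N : ℝ) + 1) ^ (k + 1) - (N : ℝ) ^ (k + 1) - (k + 1) * (N : ℝ) ^ k| := by
            refine (abs_sub _ _).trans (add_le_add ((abs_sub _ _).trans (add_le_add ?_ ?_)) ?_)
            · rw [abs_mul, Nat.abs_cast]
            · rw [abs_mul, Nat.abs_cast]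
            · rw [abs_mul, Nat.abs_cast]
          linarith
        -- sum up
        have hsum : ∀ N ≤ q, |A (2 * (k + 1)) N - (Nat.doubleFactorial (2 * (k + 1) - 1) : ℝ) * (N : ℝ) ^ (k + 1)| ≤
            N * (E * (q : ℝ) ^ (k + 1) / q ^ 2) := by
          intro N
          induction N with
          | zero =>
            intro _
            rw [hA00 _ (by omega)]
            simp
          | succ N ihN =>
            intro hN
            have h1 := ihN (by omega)
            have h2 := hinc N (by omega)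
            have h3 : A (2 * (k + 1)) (N + 1) - (Nat.doubleFactorial (2 * (k + 1) - 1) : ℝ) * ((N + 1 : ℕ) : ℝ) ^ (k + 1) =
                (A (2 * (k + 1)) N - (Nat.doubleFactorial (2 * (k + 1) - 1) : ℝ) * (N : ℝ) ^ (k + 1)) +
                (A (2 * (k + 1)) (N + 1) - A (2 * (k + 1)) N -
                  (Nat.doubleFactorial (2 * (k + 1) - 1) : ℝ) * (((N : ℝ) + 1) ^ (k + 1) - (N : ℝ) ^ (k + 1))) := by
              push_cast
              ring
            rw [h3]
            refine (abs_add_le _ _).trans ((add_le_add h1 h2).trans (le_of_eq ?_))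
            push_cast
            ring
        intro N hN
        have hE0 : 0 ≤ E := by
          rw [hE]
          have h1 := hC0 k
          have h2 := hD0 k
          have h3 : 0 ≤ ∑ i ∈ range (k + 1), ((2 * (k + 1)).choose (2 * (i + 2)) : ℝ) * D (k + 1 - (i + 2)) :=
            sum_nonneg fun i _ => mul_nonneg (by positivity) (hD0 _)
          positivity
        refine (hsum N hN).trans ?_
        have hNq : (N : ℝ) ≤ q := by exact_mod_cast hN
        calc (N : ℝ) * (E * (q : ℝ) ^ (k + 1) / q ^ 2) ≤ q * (E * (q : ℝ) ^ (k + 1) / q ^ 2) :=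
              mul_le_mul_of_nonneg_right hNq (by positivity)
          _ = E * (q : ℝ) ^ (k + 1) / q := by
              field_simp

end Growth

section Interp

variable (K : Type) [Field K] [Fintype K] [DecidableEq K]

/-- the values of the monic polynomial of degree `D` with the coefficients `u` -/
def val (D : ℕ) (u : Fin D → K) (x : K) : K := x ^ D + ∑ i, u i * x ^ (i : ℕ)

/-- the values at the points of `s` -/
def ev (D : ℕ) (s : Finset K) : (Fin D → K) →+ (s → K) where
  toFun u x := ∑ i, u i * (x : K) ^ (i : ℕ)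
  map_zero' := by
    funext x
    simp
  map_add' u v := by
    funext x
    simp [add_mul, sum_add_distrib]

theorem ev_surj (D : ℕ) (s : Finset K) (hs : s.card ≤ D) : Function.Surjective (ev K D s) := by
  intro v
  obtain ⟨w, hw⟩ : ∃ w : K → K, w = fun x => if h : x ∈ s then v ⟨x, h⟩ else 0 := ⟨_, rfl⟩
  obtain ⟨P, hP⟩ : ∃ P : Polynomial K, P = Lagrange.interpolate s id w := ⟨_, rfl⟩
  refine ⟨fun i => P.coeff i, ?_⟩
  funext x
  have h1 : P.eval (x : K) = v x := by
    rw [hP]
    have := Lagrange.eval_interpolate_at_node (s := s) (v := id) w (i := (x : K)) (Set.injOn_id _) x.2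
    rw [id] at this
    rw [this, hw]
    simp
  show ∑ i : Fin D, P.coeff i * (x : K) ^ (i : ℕ) = v x
  rw [← h1]
  rcases Nat.eq_zero_or_pos D with hD | hD
  · exfalso
    have h2 : 0 < s.card := card_pos.2 ⟨(x : K), x.2⟩
    omega
  · have h2 : P.degree < D := by
      rw [hP]
      refine (Lagrange.degree_interpolate_lt (s := s) (v := id) w (Set.injOn_id _)).trans_le ?_
      exact_mod_cast hs
    have h3 : P.natDegree < D := by
      by_cases hP0 : P = 0
      · rw [hP0, Polynomial.natDegree_zero]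
        exact hD
      · exact (Polynomial.natDegree_lt_iff_degree_lt hP0).2 h2
    rw [Polynomial.eval_eq_sum_range' h3, ← Fin.sum_univ_eq_sum_range (fun i => P.coeff i * (x : K) ^ i) D]

/-- restriction of functions -/
def res (s : Finset K) : (K → K) →+ (s → K) where
  toFun h x := h x
  map_zero' := rfl
  map_add' _ _ := rfl

theorem res_surj (s : Finset K) : Function.Surjective (res K s) := by
  intro v
  refine ⟨fun x => if h : x ∈ s then v ⟨x, h⟩ else 0, ?_⟩
  funext x
  show (if h : (x : K) ∈ s then v ⟨x, h⟩ else 0) = v x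
  rw [dif_pos x.2]

theorem prod_mean (m D : ℕ) (hm : m ≤ D) (x : Fin m → K) :
    (∑ u : Fin D → K, ∏ i, (quadraticChar K (val K D u (x i)) : ℝ)) / (Fintype.card K : ℝ) ^ D =
    (∑ h : K → K, ∏ i, (quadraticChar K (h (x i)) : ℝ)) / (Fintype.card K : ℝ) ^ (Fintype.card K) := by
  obtain ⟨s, hs⟩ : ∃ s : Finset K, s = univ.image x := ⟨_, rfl⟩
  have hsx : ∀ i, x i ∈ s := fun i => by rw [hs]; exact mem_image_of_mem x (mem_univ i)
  have hsc : s.card ≤ D := by
    rw [hs]
    refine card_image_le.trans ?_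
    rw [card_univ, Fintype.card_fin]
    exact hm
  have h1 := mean_hom (ev K D s) (ev_surj K D s hsc)
    (fun v => ∏ i, (quadraticChar K ((x i) ^ D + v ⟨x i, hsx i⟩) : ℝ))
  have h2 := mean_hom (res K s) (res_surj K s) (fun v => ∏ i, (quadraticChar K (v ⟨x i, hsx i⟩) : ℝ))
  have h3 : (∑ v : s → K, ∏ i, (quadraticChar K ((x i) ^ D + v ⟨x i, hsx i⟩) : ℝ)) =
      ∑ v : s → K, ∏ i, (quadraticChar K (v ⟨x i, hsx i⟩) : ℝ) := by
    refine Fintype.sum_equiv (Equiv.addLeft (fun y : s => (y : K) ^ D)) _ _ ?_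
    intro v
    rfl
  rw [h3, ← h2] at h1
  have c1 : (Fintype.card (Fin D → K) : ℝ) = (Fintype.card K : ℝ) ^ D := by
    rw [Fintype.card_pi_const]
    push_cast
    rfl
  have c2 : (Fintype.card (K → K) : ℝ) = (Fintype.card K : ℝ) ^ (Fintype.card K) := by
    rw [Fintype.card_fun]
    push_cast
    rfl
  rw [c1, c2] at h1
  exact h1

theorem moment_eq (m D : ℕ) (hm : m ≤ D) :
    (∑ u : Fin D → K, (∑ x : K, (quadraticChar K (val K D u x) : ℝ)) ^ m) / (Fintype.card K : ℝ) ^ D =
    M K m (Fintype.card K) := by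
  have h1 : ∀ u : Fin D → K, (∑ x : K, (quadraticChar K (val K D u x) : ℝ)) ^ m =
      ∑ x : Fin m → K, ∏ i, (quadraticChar K (val K D u (x i)) : ℝ) := fun u => Fintype.sum_pow _ m
  have h2 : ∀ h : K → K, (∑ x : K, (quadraticChar K (h x) : ℝ)) ^ m =
      ∑ x : Fin m → K, ∏ i, (quadraticChar K (h (x i)) : ℝ) := fun u => Fintype.sum_pow _ m
  have h3 : M K m (Fintype.card K) = (∑ h : K → K, (∑ x : K, (quadraticChar K (h x) : ℝ)) ^ m) /
      (Fintype.card K : ℝ) ^ (Fintype.card K) := by
    unfold M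
    congr 1
    refine Fintype.sum_equiv (Equiv.arrowCongr (Fintype.equivFin K).symm (Equiv.refl K)) _ _ ?_
    intro w
    congr 1
    refine Fintype.sum_equiv (Fintype.equivFin K).symm _ _ ?_
    intro i
    simp [Equiv.arrowCongr]
  rw [h3, sum_congr rfl (fun u _ => h1 u), sum_congr rfl (fun h _ => h2 h), sum_comm, sum_comm (s := (univ : Finset (K → K))),
    sum_div, sum_div]
  exact sum_congr rfl fun x _ => prod_mean K m D hm x

end Interp

/-- `(m - 1)!!` for even `m` and `0` for odd `m` -/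
noncomputable def normal (m : ℕ) : ℝ := if Even m then (Nat.doubleFactorial (m - 1) : ℝ) else 0

/-- **The moments up to the order `D` of the character sums of random monic polynomials of degree `D`.** -/
theorem main (m : ℕ) : ∃ C : ℝ, 0 ≤ C ∧ ∀ (K : Type) [Field K] [Fintype K] [DecidableEq K], ringChar K ≠ 2 →
    ∀ D : ℕ, m ≤ D → |(∑ u : Fin D → K, ((∑ x : K, (quadraticChar K (val K D u x) : ℝ)) / Real.sqrt (Fintype.card K)) ^ m) /
      (Fintype.card K : ℝ) ^ D - normal m| ≤ C / (Fintype.card K : ℝ) := by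
  rcases Nat.even_or_odd m with hm | hm
  · obtain ⟨k, hk⟩ := hm
    obtain ⟨C, hC0, hC⟩ := growth k
    refine ⟨C, hC0, fun K _ _ _ hK D hmD => ?_⟩
    have hq1 : 1 ≤ Fintype.card K := Fintype.card_pos
    have hq : (0 : ℝ) < Fintype.card K := by exact_mod_cast hq1
    have h1 := hC (Fintype.card K) hq1 (M K) (e K) (M_zero K) (M_N_zero K) (M_succ K) (e_zero K) (e_odd K hK) (e_even K)
      (Fintype.card K) le_rfl
    have h2 := moment_eq K m D hmD
    have h3 : ∀ u : Fin D → K, ((∑ x : K, (quadraticChar K (val K D u x) : ℝ)) / Real.sqrt (Fintype.card K)) ^ m =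
        (∑ x : K, (quadraticChar K (val K D u x) : ℝ)) ^ m / (Fintype.card K : ℝ) ^ k := by
      intro u
      rw [div_pow]
      congr 1
      rw [hk, ← two_mul, pow_mul, Real.sq_sqrt hq.le]
    rw [sum_congr rfl (fun u _ => h3 u), ← sum_div, div_right_comm, h2]
    unfold normal
    rw [if_pos ⟨k, hk⟩, show m = 2 * k by omega]
    have h4 : M K (2 * k) (Fintype.card K) / (Fintype.card K : ℝ) ^ k - (Nat.doubleFactorial (2 * k - 1) : ℝ) =
        (M K (2 * k) (Fintype.card K) - (Nat.doubleFactorial (2 * k - 1) : ℝ) * (Fintype.card K : ℝ) ^ k) / (Fintype.card K : ℝ) ^ k := by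
      field_simp
    rw [h4, abs_div, abs_of_pos (by positivity : (0 : ℝ) < (Fintype.card K : ℝ) ^ k), div_le_iff₀ (by positivity)]
    refine h1.trans (le_of_eq ?_)
    ring
  · refine ⟨0, le_rfl, fun K _ _ _ hK D hmD => ?_⟩
    have hq1 : 1 ≤ Fintype.card K := Fintype.card_pos
    have hq : (0 : ℝ) < Fintype.card K := by exact_mod_cast hq1
    have h2 := moment_eq K m D hmD
    rw [M_odd K hK m hm] at h2
    have h3 : ∀ u : Fin D → K, ((∑ x : K, (quadraticChar K (val K D u x) : ℝ)) / Real.sqrt (Fintype.card K)) ^ m =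
        (∑ x : K, (quadraticChar K (val K D u x) : ℝ)) ^ m / (Real.sqrt (Fintype.card K)) ^ m := fun u => div_pow _ _ _
    unfold normal
    rw [if_neg (Nat.not_even_iff_odd.2 hm), sum_congr rfl (fun u _ => h3 u), ← sum_div, div_right_comm, h2]
    simp

end Pool.Agent.Y57.FD.Mom
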