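import Pool.Agent.TH375.KL.Moments
import Pool.Agent.TH894.NF3
import Pool.Agent.H498R2.KlWeil

/-!
# The first four moments of the normalised Kloosterman sums
-/

set_option autoImplicit false

namespace Pool.Agent.Y57.FD.KM

open Finset Pool.Agent.Helper916 Pool.Agent.TH375.KL

section Count

variable {F : Type*} [Field F] [Fintype F] [DecidableEq F]

theorem fourth_eq (ψ : AddChar F ℂ) (hψ : ψ.IsPrimitive) :
    ∑ b : F, ∑ c : F, ‖Kl ψ b c‖ ^ 4 = (Fintype.card F : ℝ) ^ 2 *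
      ((∑ π ∈ (univ.erase (0 : F)) ×ˢ (univ.erase (0 : F)), (((univ.erase (0 : F)) ×ˢ (univ.erase (0 : F))).filter
        (fun π' => π.1 + π.2 = π'.1 + π'.2 ∧ π.1⁻¹ + π.2⁻¹ = π'.1⁻¹ + π'.2⁻¹)).card : ℕ) : ℝ) := by
  set U : Finset F := Finset.univ.erase (0 : F) with hU
  have h1 : ((∑ b : F, ∑ c : F, ‖Kl ψ b c‖ ^ 4 : ℝ) : ℂ)
      = (Fintype.card F : ℂ) ^ 2 * ((∑ π ∈ U ×ˢ U, ((U ×ˢ U).filter
        (fun π' => π.1 + π.2 = π'.1 + π'.2 ∧ π.1⁻¹ + π.2⁻¹ = π'.1⁻¹ + π'.2⁻¹)).card : ℕ) : ℂ) := by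
    push_cast
    have e1 : ∀ b c : F, ((‖Kl ψ b c‖ : ℂ)) ^ 4 = ∑ π ∈ U ×ˢ U, ∑ π' ∈ U ×ˢ U,
        ψ (b * ((π.1 + π.2) - (π'.1 + π'.2))) * ψ (c * ((π.1⁻¹ + π.2⁻¹) - (π'.1⁻¹ + π'.2⁻¹))) := by
      intro b c
      have e2 : ((‖Kl ψ b c‖ : ℂ)) ^ 4 = (Kl ψ b c) ^ 2 * (starRingEnd ℂ) ((Kl ψ b c) ^ 2) := by
        rw [Complex.mul_conj', norm_pow]; push_cast; ring
      rw [e2, Kl_sq, map_sum, Finset.sum_mul_sum]
      refine Finset.sum_congr rfl fun π _ => Finset.sum_congr rfl fun π' _ => ?_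
      rw [← AddChar.map_neg_eq_conj, ← AddChar.map_add_eq_mul, ← AddChar.map_add_eq_mul]
      congr 1
      ring
    have e3 : ∑ b : F, ∑ c : F, ((‖Kl ψ b c‖ : ℂ)) ^ 4
        = ∑ π ∈ U ×ˢ U, ∑ π' ∈ U ×ˢ U, (∑ b : F, ψ (b * ((π.1 + π.2) - (π'.1 + π'.2)))) *
          (∑ c : F, ψ (c * ((π.1⁻¹ + π.2⁻¹) - (π'.1⁻¹ + π'.2⁻¹)))) := by
      rw [Finset.sum_congr rfl fun b _ => Finset.sum_congr rfl fun c _ => e1 b c]
      rw [Finset.sum_congr rfl fun b _ => Finset.sum_comm]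
      rw [Finset.sum_comm]
      refine Finset.sum_congr rfl fun π _ => ?_
      rw [Finset.sum_congr rfl fun b _ => Finset.sum_comm]
      rw [Finset.sum_comm]
      refine Finset.sum_congr rfl fun π' _ => ?_
      rw [Finset.sum_mul_sum]
    rw [e3, Finset.mul_sum]
    refine Finset.sum_congr rfl fun π _ => ?_
    simp_rw [AddChar.sum_mulShift _ hψ, sub_eq_zero]
    rw [Finset.card_filter]
    push_cast
    rw [Finset.mul_sum]
    refine Finset.sum_congr rfl fun π' _ => ?_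
    by_cases c1 : π.1 + π.2 = π'.1 + π'.2
    · by_cases c2 : π.1⁻¹ + π.2⁻¹ = π'.1⁻¹ + π'.2⁻¹
      · simp [c1, c2, sq]
      · simp [c1, c2]
    · simp [c1]
  exact_mod_cast h1

/-- lower bound for the number of solutions -/
theorem count_ge (h2 : (2 : F) ≠ 0) : ((Fintype.card F : ℝ) - 1) * (3 * (Fintype.card F : ℝ) - 7) ≤
    ((∑ π ∈ (univ.erase (0 : F)) ×ˢ (univ.erase (0 : F)), (((univ.erase (0 : F)) ×ˢ (univ.erase (0 : F))).filter
        (fun π' => π.1 + π.2 = π'.1 + π'.2 ∧ π.1⁻¹ + π.2⁻¹ = π'.1⁻¹ + π'.2⁻¹)).card : ℕ) : ℝ) := by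
  obtain ⟨U, hU⟩ : ∃ U : Finset F, U = univ.erase (0 : F) := ⟨_, rfl⟩
  obtain ⟨q, hq⟩ : ∃ q : ℝ, q = (Fintype.card F : ℝ) := ⟨_, rfl⟩
  rw [← hU, ← hq]
  have hUc : (U.card : ℝ) = q - 1 := by
    rw [hU, card_erase_of_mem (mem_univ _), card_univ, Nat.cast_sub Fintype.card_pos, hq]
    simp
  have hmemU : ∀ x : F, x ∈ U ↔ x ≠ 0 := by
    intro x
    rw [hU, mem_erase]
    exact ⟨fun h => h.1, fun h => ⟨h, mem_univ _⟩⟩
  push_cast
  rw [sum_product]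
  -- for every x
  have key : ∀ x ∈ U, 3 * q - 7 ≤ ∑ y ∈ U, (((U ×ˢ U).filter
        (fun π' => (x, y).1 + (x, y).2 = π'.1 + π'.2 ∧ (x, y).1⁻¹ + (x, y).2⁻¹ = π'.1⁻¹ + π'.2⁻¹)).card : ℝ) := by
    intro x hx
    have hx0 : x ≠ 0 := (hmemU x).1 hx
    have hnx : -x ∈ U := (hmemU _).2 (neg_ne_zero.2 hx0)
    have hne : x ≠ -x := by
      intro h
      apply hx0
      have h3 : (2 : F) * x = 0 := by linear_combination h
      exact (mul_eq_zero.1 h3).resolve_left h2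
    have ha : (q - 1 : ℝ) ≤ (((U ×ˢ U).filter
        (fun π' => (x, -x).1 + (x, -x).2 = π'.1 + π'.2 ∧ (x, -x).1⁻¹ + (x, -x).2⁻¹ = π'.1⁻¹ + π'.2⁻¹)).card : ℝ) := by
      rw [← hUc]
      have h3 : U.image (fun z => (z, -z)) ⊆ (U ×ˢ U).filter
        (fun π' => (x, -x).1 + (x, -x).2 = π'.1 + π'.2 ∧ (x, -x).1⁻¹ + (x, -x).2⁻¹ = π'.1⁻¹ + π'.2⁻¹) := by
        intro π hπ
        rw [mem_image] at hπ
        obtain ⟨z, hz, rfl⟩ := hπ
        rw [mem_filter, mem_product]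
        refine ⟨⟨hz, (hmemU _).2 (neg_ne_zero.2 ((hmemU z).1 hz))⟩, ?_, ?_⟩
        · show x + -x = z + -z
          ring
        · show x⁻¹ + (-x)⁻¹ = z⁻¹ + (-z)⁻¹
          rw [inv_neg, inv_neg]
          ring
      have h4 : (U.image (fun z => (z, -z))).card = U.card :=
        card_image_of_injective _ (fun z z' h => (Prod.mk.inj h).1)
      rw [← h4]
      exact_mod_cast card_le_card h3
    have hb : ∀ y ∈ (U.erase (-x)).erase x, (2 : ℝ) ≤ (((U ×ˢ U).filter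
        (fun π' => (x, y).1 + (x, y).2 = π'.1 + π'.2 ∧ (x, y).1⁻¹ + (x, y).2⁻¹ = π'.1⁻¹ + π'.2⁻¹)).card : ℝ) := by
      intro y hy
      rw [mem_erase, mem_erase] at hy
      have h3 : ({(x, y), (y, x)} : Finset (F × F)) ⊆ (U ×ˢ U).filter
        (fun π' => (x, y).1 + (x, y).2 = π'.1 + π'.2 ∧ (x, y).1⁻¹ + (x, y).2⁻¹ = π'.1⁻¹ + π'.2⁻¹) := by
        intro π hπ
        rw [mem_insert, mem_singleton] at hπ
        rw [mem_filter, mem_product]
        rcases hπ with rfl | rfl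
        · exact ⟨⟨hx, hy.2.2⟩, rfl, rfl⟩
        · exact ⟨⟨hy.2.2, hx⟩, add_comm _ _, add_comm _ _⟩
      have h4 : ({(x, y), (y, x)} : Finset (F × F)).card = 2 := by
        rw [card_pair]
        intro h
        exact hy.1 (Prod.mk.inj h).2
      have h5 := card_le_card h3
      rw [h4] at h5
      exact_mod_cast h5
    rw [← add_sum_erase _ _ hnx]
    have h6 : (2 : ℝ) * (q - 3) ≤ ∑ y ∈ U.erase (-x), (((U ×ˢ U).filter
        (fun π' => (x, y).1 + (x, y).2 = π'.1 + π'.2 ∧ (x, y).1⁻¹ + (x, y).2⁻¹ = π'.1⁻¹ + π'.2⁻¹)).card : ℝ) := by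
      have h7 : ∑ y ∈ (U.erase (-x)).erase x, (2 : ℝ) ≤ ∑ y ∈ U.erase (-x), (((U ×ˢ U).filter
        (fun π' => (x, y).1 + (x, y).2 = π'.1 + π'.2 ∧ (x, y).1⁻¹ + (x, y).2⁻¹ = π'.1⁻¹ + π'.2⁻¹)).card : ℝ) :=
        (sum_le_sum hb).trans (sum_le_sum_of_subset_of_nonneg (erase_subset _ _) fun _ _ _ => Nat.cast_nonneg _)
      refine le_trans (le_of_eq ?_) h7
      rw [sum_const, nsmul_eq_mul]
      have h8 : ((U.erase (-x)).erase x).card + 2 = U.card := by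
        have e1 := card_erase_add_one hnx
        have e2 : x ∈ U.erase (-x) := mem_erase.2 ⟨hne, hx⟩
        have e3 := card_erase_add_one e2
        omega
      have h9 : ((((U.erase (-x)).erase x).card : ℕ) : ℝ) + 2 = q - 1 := by
        rw [← hUc]
        exact_mod_cast h8
      have h10 : ((((U.erase (-x)).erase x).card : ℕ) : ℝ) = q - 3 := by linarith
      rw [h10]
      ring
    linarith [ha, h6]
  have h11 := sum_le_sum key
  rw [sum_const, nsmul_eq_mul, hUc] at h11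
  exact h11

end Count

variable {p : ℕ} [hp : Fact p.Prime]

theorem two_dim_four_ge (h2 : p ≠ 2) : (p : ℝ) ^ 2 * (((p : ℝ) - 1) * (3 * (p : ℝ) - 7)) ≤ ∑ b : ZMod p, ∑ c : ZMod p, rk p b c ^ 4 := by
  have h1 := fourth_eq (ZMod.stdAddChar (N := p)) (prim (p := p))
  have h3 : (2 : ZMod p) ≠ 0 := by
    intro h
    have h4 : ((2 : ℕ) : ZMod p) = 0 := by exact_mod_cast h
    rw [ZMod.natCast_eq_zero_iff] at h4
    have := Nat.le_of_dvd (by norm_num) h4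
    have := hp.out.two_le
    omega
  have h5 := count_ge (F := ZMod p) h3
  rw [ZMod.card] at h1 h5
  have h6 : ∑ b : ZMod p, ∑ c : ZMod p, rk p b c ^ 4 = ∑ b : ZMod p, ∑ c : ZMod p, ‖Kl (ZMod.stdAddChar (N := p)) b c‖ ^ 4 := by
    refine sum_congr rfl fun b _ => sum_congr rfl fun c _ => ?_
    have h2 : ‖Kl (ZMod.stdAddChar (N := p)) b c‖ = |rk p b c| := by
      have h3 := rk_eq (p := p) b c
      have h4 : Kl (ZMod.stdAddChar (N := p)) b c = (rk p b c : ℂ) := h3.symm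
      rw [h4, Complex.norm_real, Real.norm_eq_abs]
    rw [h2]
    have h5 : |rk p b c| ^ 4 = (|rk p b c| ^ 2) ^ 2 := by ring
    rw [h5, sq_abs]
    ring
  rw [h6, h1]
  exact mul_le_mul_of_nonneg_left h5 (by positivity)

/-- the fourth moment -/
theorem m4' : |∑ a : ZMod p, rk p a 1 ^ 4 - 2 * (p : ℝ) ^ 3| ≤ 8 * (p : ℝ) ^ 2 := by
  have hp1 := p_gt (p := p)
  have hp2 : (2 : ℝ) ≤ p := by exact_mod_cast hp.out.two_le
  have hp0 : 0 < (p : ℝ) - 1 := by linarith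
  have hup := m4 (p := p)
  rw [abs_le]
  constructor
  · by_cases h2 : p = 2
    · have h3 : (p : ℝ) = 2 := by rw [h2]; norm_num
      have h4 : 0 ≤ ∑ a : ZMod p, rk p a 1 ^ 4 := sum_nonneg fun a _ => by positivity
      rw [h3]
      linarith
    · have h1 := moment_eq (p := p) 4
      have h3 := two_dim_four_ge h2
      have h4 : ((p : ℝ) - 1) * (2 * (p : ℝ) ^ 3 - 8 * (p : ℝ) ^ 2) ≤ ((p : ℝ) - 1) * ∑ a : ZMod p, rk p a 1 ^ 4 := by
        rw [h1]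
        nlinarith [mul_nonneg hp0.le (by nlinarith : (0 : ℝ) ≤ 4 * (p : ℝ) ^ 2 - 3 * p)]
      have h5 := le_of_mul_le_mul_left h4 hp0
      linarith
  · nlinarith

theorem weil {a : ZMod p} (ha : a ≠ 0) : |rk p a 1| ≤ 2 * Real.sqrt p := by
  have h1 : |rk p a 1| ≤ ‖Pool.Agent.TH375.KL.KK p a 1‖ := by
    unfold rk
    exact Complex.abs_re_le_norm _
  refine h1.trans ?_
  have h2 : Pool.Agent.TH375.KL.KK p a 1 = ∑ x : ZMod p, (if x = 0 then (0 : ℂ) else ZMod.stdAddChar (a * x + 1 * x⁻¹)) := by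
    unfold Pool.Agent.TH375.KL.KK Kl
    rw [← add_sum_erase univ (fun x : ZMod p => if x = 0 then (0 : ℂ) else ZMod.stdAddChar (a * x + 1 * x⁻¹)) (mem_univ 0), if_pos rfl,
      zero_add]
    refine sum_congr rfl fun x hx => ?_
    rw [if_neg (mem_erase.1 hx).1]
  by_cases hp2 : p = 2
  · rw [h2, ← add_sum_erase univ _ (mem_univ (0 : ZMod p)), if_pos rfl, zero_add]
    have h3 : ‖∑ x ∈ univ.erase (0 : ZMod p), (if x = 0 then (0 : ℂ) else ZMod.stdAddChar (a * x + 1 * x⁻¹))‖ ≤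
        ∑ _x ∈ univ.erase (0 : ZMod p), (1 : ℝ) := by
      refine (norm_sum_le _ _).trans (sum_le_sum fun x hx => ?_)
      rw [if_neg (mem_erase.1 hx).1]
      exact (AddChar.norm_apply _ _).le
    refine h3.trans ?_
    rw [sum_const, nsmul_eq_mul, card_erase_of_mem (mem_univ _), card_univ, ZMod.card, hp2]
    have h4 : (1 : ℝ) ≤ Real.sqrt 2 := Real.one_le_sqrt.2 (by norm_num)
    have h5 : ((2 : ℕ) : ℝ) = 2 := by norm_num
    rw [h5]
    have h6 : (((2 - 1 : ℕ) : ℕ) : ℝ) * 1 = 1 := by norm_num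
    rw [h6]
    linarith
  · rw [h2]
    have hF : ringChar (ZMod p) ≠ 2 := by
      rw [ZMod.ringChar_zmod_n]
      exact hp2
    have h := Pool.Agent.H498R2.Kl.kloosterman_le hF (ZMod.isPrimitive_stdAddChar p) ha one_ne_zero
    rwa [ZMod.card] at h

theorem rk_zero_one : rk p 0 1 = -1 := by
  unfold rk Pool.Agent.TH375.KL.KK Kl
  simp only [zero_mul, zero_add, one_mul]
  have h1 : ∑ z : ZMod p, ZMod.stdAddChar z⁻¹ = (0 : ℂ) := by
    have h2 : ∑ z : ZMod p, ZMod.stdAddChar z⁻¹ = ∑ z : ZMod p, (ZMod.stdAddChar z : ℂ) :=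
      Fintype.sum_bijective (fun z : ZMod p => z⁻¹) inv_involutive.bijective _ _ fun z => rfl
    rw [h2]
    have := AddChar.sum_mulShift (1 : ZMod p) (prim (p := p))
    rw [if_neg one_ne_zero, Nat.cast_zero] at this
    rw [← this]
    exact sum_congr rfl fun z _ => by rw [mul_one]
  rw [← add_sum_erase _ _ (mem_univ (0 : ZMod p)), inv_zero, AddChar.map_zero_eq_one] at h1
  have h3 : ∑ x ∈ univ.erase (0 : ZMod p), (ZMod.stdAddChar x⁻¹ : ℂ) = -1 := by linear_combination h1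
  rw [h3]
  simp

/-- the cosine of the angle -/
noncomputable def ca (p a : ℕ) : ℝ := if p ∣ a then 0 else Pool.Agent.TH894.NF.kls p a / (2 * Real.sqrt p)

theorem ca_mod (p a : ℕ) : ca p (a % p) = ca p a := by
  unfold ca
  rw [Pool.Agent.TH894.NF.kls_mod]
  have h : p ∣ a % p ↔ p ∣ a := Nat.dvd_mod_iff (dvd_refl p)
  by_cases h1 : p ∣ a
  · rw [if_pos h1, if_pos (h.2 h1)]
  · rw [if_neg h1, if_neg (fun h2 => h1 (h.1 h2))]

theorem ca_le (a : ℕ) : |ca p a| ≤ 1 := by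
  unfold ca
  split_ifs with h
  · rw [abs_zero]
    exact zero_le_one
  · have hp0 : (0 : ℝ) < p := by exact_mod_cast hp.out.pos
    have h1 : 0 < 2 * Real.sqrt p := by positivity
    rw [abs_div, abs_of_pos h1, div_le_one h1, Pool.Agent.TH894.NF.kls_eq]
    apply weil
    intro h2
    exact h ((ZMod.natCast_eq_zero_iff _ _).1 h2)

/-- the sum of a power -/
theorem sum_ca (j : ℕ) (hj : 1 ≤ j) : ∑ a ∈ range p, ca p a ^ j = (∑ a : ZMod p, rk p a 1 ^ j - (-1) ^ j) / (2 * Real.sqrt p) ^ j := by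
  have h1 : ∑ a ∈ range p, ca p a ^ j = ∑ a : ZMod p, (if a = 0 then (0 : ℝ) else (rk p a 1 / (2 * Real.sqrt p)) ^ j) := by
    rw [← sum_range_zmod (fun a : ZMod p => if a = 0 then (0 : ℝ) else (rk p a 1 / (2 * Real.sqrt p)) ^ j)]
    refine sum_congr rfl fun a _ => ?_
    unfold ca
    by_cases h : p ∣ a
    · rw [if_pos h, if_pos ((ZMod.natCast_eq_zero_iff _ _).2 h), zero_pow (by omega)]
    · rw [if_neg h, if_neg (fun h2 => h ((ZMod.natCast_eq_zero_iff _ _).1 h2)), Pool.Agent.TH894.NF.kls_eq]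
  rw [h1, ← add_sum_erase univ _ (mem_univ (0 : ZMod p)), if_pos rfl, zero_add]
  have h2 : ∑ a ∈ univ.erase (0 : ZMod p), (if a = 0 then (0 : ℝ) else (rk p a 1 / (2 * Real.sqrt p)) ^ j) =
      (∑ a ∈ univ.erase (0 : ZMod p), rk p a 1 ^ j) / (2 * Real.sqrt p) ^ j := by
    rw [sum_div]
    refine sum_congr rfl fun a ha => ?_
    rw [if_neg (mem_erase.1 ha).1, div_pow]
  rw [h2, ← add_sum_erase univ (fun a : ZMod p => rk p a 1 ^ j) (mem_univ (0 : ZMod p)), rk_zero_one]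
  congr 1
  ring

open Polynomial in
theorem U1 (x : ℝ) : (Chebyshev.U ℝ 1).eval x = 2 * x := by
  rw [Chebyshev.U_one]
  simp

open Polynomial in
theorem U2 (x : ℝ) : (Chebyshev.U ℝ 2).eval x = 4 * x ^ 2 - 1 := by
  rw [Chebyshev.U_two]
  simp

open Polynomial in
theorem U3 (x : ℝ) : (Chebyshev.U ℝ 3).eval x = 8 * x ^ 3 - 4 * x := by
  have h := Chebyshev.U_add_two ℝ 1
  have e : (1 : ℤ) + 2 = 3 := by norm_num
  have e' : (1 : ℤ) + 1 = 2 := by norm_num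
  rw [e, e'] at h
  rw [h, eval_sub, eval_mul, U2, U1]
  simp
  ring

open Polynomial in
theorem U4 (x : ℝ) : (Chebyshev.U ℝ 4).eval x = 16 * x ^ 4 - 12 * x ^ 2 + 1 := by
  have h := Chebyshev.U_add_two ℝ 2
  have e : (2 : ℤ) + 2 = 4 := by norm_num
  have e' : (2 : ℤ) + 1 = 3 := by norm_num
  rw [e, e'] at h
  rw [h, eval_sub, eval_mul, U3, U2]
  simp
  ring

theorem mean_one (F : ℕ → ℝ) : Pool.Agent.TH894.NE.mean 1 p (fun m => F (m 0)) = (∑ a ∈ range p, F a) / p := by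
  unfold Pool.Agent.TH894.NE.mean
  rw [pow_one, one_div, div_eq_inv_mul]
  congr 1
  apply sum_bij (fun (m : Fin 1 → ℕ) _ => m 0)
  · intro m hm
    exact mem_range.2 (Pool.Agent.TH894.NE.mem_box.1 hm 0)
  · intro m _ m' _ hmm
    funext i
    rw [Subsingleton.elim i 0]
    exact hmm
  · intro a ha
    refine ⟨fun _ => a, ?_, rfl⟩
    rw [Pool.Agent.TH894.NE.mem_box]
    exact fun _ => mem_range.1 ha
  · intro m _
    rfl

open Polynomial in
/-- the means of the Chebyshev polynomials -/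
theorem meanU (j : ℕ) (h1 : 1 ≤ j) (h4 : j ≤ 4) :
    |Pool.Agent.TH894.NE.mean 1 p (fun m => (Chebyshev.U ℝ (j : ℤ)).eval (ca p (m 0)))| ≤ 13 / Real.sqrt p := by
  obtain ⟨q, hq⟩ : ∃ q : ℝ, q = Real.sqrt p := ⟨_, rfl⟩
  have hp2 : (2 : ℝ) ≤ p := by exact_mod_cast hp.out.two_le
  have hp0 : (0 : ℝ) < p := by linarith
  have hq0 : 0 < q := by rw [hq]; exact Real.sqrt_pos.2 hp0
  have hqq : q ^ 2 = p := by rw [hq]; exact Real.sq_sqrt hp0.le
  have hq1 : 1 ≤ q := by rw [hq]; exact Real.one_le_sqrt.2 (by linarith)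
  rw [mean_one (fun a => (Chebyshev.U ℝ (j : ℤ)).eval (ca p a)), ← hq]
  have s1 := sum_ca (p := p) 1 le_rfl
  have s2 := sum_ca (p := p) 2 (by norm_num)
  have s3 := sum_ca (p := p) 3 (by norm_num)
  have s4 := sum_ca (p := p) 4 (by norm_num)
  have k1 : ∑ a : ZMod p, rk p a 1 ^ 1 = 0 := by
    simp only [pow_one]
    exact m1
  have k3 := m3 (p := p)
  have k4 := m4' (p := p)
  rw [k1, ← hq] at s1
  rw [m2, ← hq] at s2
  rw [← hq] at s3 s4
  simp only [pow_one] at s1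
  obtain ⟨T3, hT3⟩ : ∃ T : ℝ, T = ∑ a : ZMod p, rk p a 1 ^ 3 := ⟨_, rfl⟩
  obtain ⟨T4, hT4⟩ : ∃ T : ℝ, T = ∑ a : ZMod p, rk p a 1 ^ 4 := ⟨_, rfl⟩
  obtain ⟨S1, hS1⟩ : ∃ S : ℝ, S = ∑ a ∈ range p, ca p a := ⟨_, rfl⟩
  obtain ⟨S2, hS2⟩ : ∃ S : ℝ, S = ∑ a ∈ range p, ca p a ^ 2 := ⟨_, rfl⟩
  obtain ⟨S3, hS3⟩ : ∃ S : ℝ, S = ∑ a ∈ range p, ca p a ^ 3 := ⟨_, rfl⟩
  obtain ⟨S4, hS4⟩ : ∃ S : ℝ, S = ∑ a ∈ range p, ca p a ^ 4 := ⟨_, rfl⟩
  rw [← hT3] at s3 k3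
  rw [← hT4] at s4 k4
  rw [← hS1] at s1
  rw [← hS2] at s2
  rw [← hS3] at s3
  rw [← hS4] at s4
  rw [← hqq] at k3 k4 s2
  have hgoal : ∀ Z : ℝ, |Z| ≤ 13 * q → |Z / (p : ℝ)| ≤ 13 / q := by
    intro Z hZ
    rw [abs_div, abs_of_pos hp0, ← hqq, div_le_div_iff₀ (by positivity) hq0]
    nlinarith [abs_nonneg Z]
  apply hgoal
  have hs1 : S1 * q = 1 / 2 := by
    rw [s1]
    field_simp
    norm_num
  have hs2 : 4 * S2 = q ^ 2 - 1 - 1 / q ^ 2 := by
    rw [s2]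
    field_simp
    ring
  have hS1b : |S1| ≤ 1 / 2 := by
    have h5 : S1 = (1 / 2) / q := by
      rw [← hs1]
      field_simp
    rw [h5, abs_of_pos (by positivity)]
    exact div_le_self (by norm_num) hq1
  have hinv : 0 < 1 / q ^ 2 ∧ 1 / q ^ 2 ≤ 1 := by
    refine ⟨by positivity, ?_⟩
    rw [div_le_one (by positivity)]
    nlinarith
  have hcases : j = 1 ∨ j = 2 ∨ j = 3 ∨ j = 4 := by omega
  rcases hcases with h | h | h | h
  · subst h
    have e : ∑ a ∈ range p, (Chebyshev.U ℝ ((1 : ℕ) : ℤ)).eval (ca p a) = 2 * S1 := by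
      rw [hS1, mul_sum]
      refine sum_congr rfl fun a _ => ?_
      exact U1 _
    rw [e, abs_mul, abs_two]
    linarith
  · subst h
    have e : ∑ a ∈ range p, (Chebyshev.U ℝ ((2 : ℕ) : ℤ)).eval (ca p a) = 4 * S2 - p := by
      rw [hS2, mul_sum]
      have e2 : (p : ℝ) = ∑ _a ∈ range p, (1 : ℝ) := by rw [sum_const, card_range, nsmul_eq_mul, mul_one]
      rw [e2, ← sum_sub_distrib]
      refine sum_congr rfl fun a _ => ?_
      exact U2 _
    rw [e, hs2, ← hqq, abs_le]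
    constructor <;> nlinarith [hinv.1, hinv.2]
  · subst h
    have e : ∑ a ∈ range p, (Chebyshev.U ℝ ((3 : ℕ) : ℤ)).eval (ca p a) = 8 * S3 - 4 * S1 := by
      rw [hS3, hS1, mul_sum, mul_sum, ← sum_sub_distrib]
      refine sum_congr rfl fun a _ => ?_
      exact U3 _
    rw [e]
    have h6 : |8 * S3| ≤ 2 * q + 1 := by
      have h7 : 8 * S3 = (T3 + 1) / q ^ 3 := by
        rw [s3]
        field_simp
        ring
      rw [h7, abs_div, abs_of_pos (by positivity : 0 < q ^ 3), div_le_iff₀ (by positivity)]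
      have h8 : |T3 + 1| ≤ 2 * (q ^ 2) ^ 2 + 1 := by
        refine (abs_add_le _ _).trans ?_
        rw [abs_one]
        linarith
      have h9 : (1 : ℝ) ≤ q ^ 3 := one_le_pow₀ hq1
      nlinarith
    refine (abs_sub _ _).trans ?_
    rw [abs_mul 4, abs_of_pos (by norm_num : (0 : ℝ) < 4)]
    linarith
  · subst h
    have e : ∑ a ∈ range p, (Chebyshev.U ℝ ((4 : ℕ) : ℤ)).eval (ca p a) = 16 * S4 - 12 * S2 + p := by
      rw [hS4, hS2, mul_sum, mul_sum]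
      have e2 : (p : ℝ) = ∑ _a ∈ range p, (1 : ℝ) := by rw [sum_const, card_range, nsmul_eq_mul, mul_one]
      rw [e2, ← sum_sub_distrib, ← sum_add_distrib]
      refine sum_congr rfl fun a _ => ?_
      exact U4 _
    rw [e]
    have h6 : |16 * S4 - 2 * q ^ 2| ≤ 9 := by
      have h7 : 16 * S4 - 2 * q ^ 2 = (T4 - 2 * (q ^ 2) ^ 3 - 1) / q ^ 4 := by
        rw [s4]
        field_simp
        ring
      rw [h7, abs_div, abs_of_pos (by positivity : 0 < q ^ 4), div_le_iff₀ (by positivity)]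
      have h8 : |T4 - 2 * (q ^ 2) ^ 3 - 1| ≤ 8 * (q ^ 2) ^ 2 + 1 := by
        refine (abs_sub _ _).trans ?_
        rw [abs_one]
        linarith
      have h9 : (1 : ℝ) ≤ q ^ 4 := one_le_pow₀ hq1
      nlinarith
    have h10 : 16 * S4 - 12 * S2 + p = (16 * S4 - 2 * q ^ 2) + (3 + 3 * (1 / q ^ 2)) := by
      rw [← hqq]
      linear_combination (-3) * hs2
    rw [h10]
    refine (abs_add_le _ _).trans ?_
    rw [abs_of_pos (by linarith [hinv.1] : 0 < 3 + 3 * (1 / q ^ 2))]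
    -- 9 + 3 + 3 / q^2
    have h11 : 1 / q ^ 2 ≤ 1 / 2 := by
      rw [hqq]
      exact one_div_le_one_div_of_le (by norm_num) hp2
    have h12 : (1.4 : ℝ) ≤ q := by
      rw [hq]
      exact Real.le_sqrt_of_sq_le (by norm_num; linarith)
    linarith

open Polynomial in
theorem U_le (j : ℕ) (h4 : j ≤ 4) {x : ℝ} (hx : |x| ≤ 1) : |(Chebyshev.U ℝ (j : ℤ)).eval x| ≤ 29 := by
  have hx2 : x ^ 2 ≤ 1 := (sq_le_one_iff_abs_le_one x).2 hx
  have hx0 : 0 ≤ x ^ 2 := sq_nonneg x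
  obtain ⟨ha, hb⟩ := abs_le.1 hx
  have hcases : j = 0 ∨ j = 1 ∨ j = 2 ∨ j = 3 ∨ j = 4 := by omega
  rcases hcases with h | h | h | h | h
  · subst h
    have : (Chebyshev.U ℝ ((0 : ℕ) : ℤ)).eval x = 1 := by
      rw [Nat.cast_zero, Chebyshev.U_zero]
      simp
    rw [this, abs_one]
    norm_num
  · subst h
    have : (Chebyshev.U ℝ ((1 : ℕ) : ℤ)).eval x = 2 * x := U1 x
    rw [this, abs_le]
    constructor <;> linarith
  · subst h
    have : (Chebyshev.U ℝ ((2 : ℕ) : ℤ)).eval x = 4 * x ^ 2 - 1 := U2 x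
    rw [this, abs_le]
    constructor <;> linarith
  · subst h
    have : (Chebyshev.U ℝ ((3 : ℕ) : ℤ)).eval x = 8 * x ^ 3 - 4 * x := U3 x
    rw [this]
    have e : 8 * x ^ 3 - 4 * x = (8 * x ^ 2 - 4) * x := by ring
    rw [e, abs_mul]
    have h5 : |8 * x ^ 2 - 4| ≤ 4 := by
      rw [abs_le]
      constructor <;> linarith
    nlinarith [abs_nonneg x, abs_nonneg (8 * x ^ 2 - 4)]
  · subst h
    have : (Chebyshev.U ℝ ((4 : ℕ) : ℤ)).eval x = 16 * x ^ 4 - 12 * x ^ 2 + 1 := U4 x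
    rw [this]
    have e : x ^ 4 = x ^ 2 * x ^ 2 := by ring
    rw [e, abs_le]
    constructor <;> nlinarith

end Pool.Agent.Y57.FD.KM
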