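import Pool.Agent.TH894.NE5

/-!
# Local conditions modulo primes for the integer vectors obtained by changing few digits: packaging

`law` is a convenient form of `Pool.Agent.TH894.NE.law2` (families of arbitrary local conditions modulo the primes of
arbitrary finite sets), `lawF` of `Pool.Agent.TH894.NE.law3` (bounded functions instead of conditions).
-/

set_option autoImplicit false

namespace Pool.Agent.Y57.FD

open Finset
open Pool.Agent.TH894.NE (Pr mean box)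

/-- The digit number `i` (counted from the right, beginning with `0`) of `n` in base `b`. -/
def digit (b i n : ℕ) : ℕ := n / b ^ i % b

/-- The number which arises from the number `N` with at most `K` digits in base `b`, if for every `i ∈ S`
the digit number `i` is replaced by `f i`. -/
def change (b K N : ℕ) (f : ℕ → ℕ) (S : Finset ℕ) : ℕ :=
  ∑ i ∈ range K, (if i ∈ S then f i else digit b i N) * b ^ i

open Classical in
/-- The number of the choices of `r l` of `K l` positions for all `l < d` for which the vector of the numbers obtained by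
changing the digits of the `N l` at the chosen positions (according to `f l`) does not have the property `E`. -/
noncomputable def exceptions {d : ℕ} (b : ℕ) (K r N : Fin d → ℕ) (f : Fin d → ℕ → ℕ) (E : (Fin d → ℕ) → Prop) : ℕ :=
  ((Fintype.piFinset (fun l => powersetCard (r l) (range (K l)))).filter
    (fun S => ¬ E (fun l => change b (K l) (N l) (f l) (S l)))).card

open Classical in
/-- **Arbitrary local conditions.** -/
theorem law (b d : ℕ) (hb : 2 ≤ b) (hd : 1 ≤ d) (δ : ℝ) (hδ : 0 < δ) (A A₂ : ℕ) : ∃ c : ℝ, 0 < c ∧ ∃ y₀ : ℕ,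
    ∀ (K r : Fin d → ℕ) (y : ℕ), (∀ l, 2 * r l ≤ K l) → y₀ ≤ y →
    ∀ N : Fin d → ℕ, (∀ l, N l < b ^ K l) → ∀ f : Fin d → ℕ → ℕ, (∀ l j, f l j < b ∧ f l j ≠ digit b j (N l)) →
    ∀ (κ : Type) (Λ : ℕ → Finset κ), (∀ x, 2 ≤ x → (Λ x).card ≤ x ^ A₂) →
    ∀ P : ℕ → κ → Finset ℕ, (∀ x l, ∀ p ∈ P x l, p.Prime ∧ p ≤ x) →
    ∀ T : κ → ℕ → (Fin d → ℕ) → Prop, (∀ l p, p.Prime → ∀ n, T l p n ↔ T l p (fun i => n i % p)) →
    ∀ E : (Fin d → ℕ) → Prop,
    (∀ m : Fin d → ℕ, (∀ x : ℕ, 2 ≤ x → y ≤ x → (∀ l, (x : ℝ) ≤ Real.exp (c * r l)) → ∀ l ∈ Λ x,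
      |(((P x l).filter (fun p => T l p m)).card : ℝ) - ∑ p ∈ P x l, Pr d p (T l p)| ≤
        Real.sqrt (max 1 (∑ p ∈ P x l, Pr d p (T l p))) * (x : ℝ) ^ δ) → E m) →
    (exceptions b K r N f E : ℝ) ≤ 1 / (y : ℝ) ^ A * ∏ l, ((K l).choose (r l) : ℝ) := by
  obtain ⟨c, hc, x₀, h⟩ := Pool.Agent.TH894.NE.law2 b d hb hd δ A A₂ hδ
  refine ⟨c, hc, x₀ + 3, fun K r y hrK hy N hN f hf κ Λ hΛ P hP T hT E hE => ?_⟩
  have hy0 : (0 : ℝ) < y := by exact_mod_cast (by omega : 0 < y)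
  have h1 : 1 / (y : ℝ) ^ A = (y : ℝ) ^ (-(A : ℝ)) := by
    rw [Real.rpow_neg hy0.le, Real.rpow_natCast, one_div]
  rw [h1]
  unfold exceptions
  refine h r K y hrK (by omega) N hN f hf κ (fun x => if x < 2 then ∅ else Λ x) ?_ ℕ
    P (fun _ p => p) ?_ ?_ T ?_ _ (filter_subset _ _) ?_
  · intro x _
    show (((if x < 2 then ∅ else Λ x) : Finset κ).card : ℝ) ≤ _
    split_ifs with hx
    · rw [card_empty, Nat.cast_zero]
      positivity
    · rw [Real.rpow_natCast]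
      exact_mod_cast hΛ x (by omega)
  · intro x l _ p hp
    exact ⟨(hP x l p hp).1.one_lt.le, (hP x l p hp).2⟩
  · intro x l _ p hp p' hp' hne
    exact (Nat.coprime_primes (hP x l p hp).1 (hP x l p' hp').1).2 hne
  · intro x l _ p hp m
    exact hT l p (hP x l p hp).1 m
  · intro S hS
    rw [mem_filter] at hS
    obtain ⟨_, hS2⟩ := hS
    by_contra hcon
    push Not at hcon
    refine hS2 (hE _ fun x hx2 hyx hxr l hl => ?_)
    have hx0 : (0 : ℝ) < x := by exact_mod_cast (by omega : 0 < x)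
    refine hcon x hyx (fun i => (Real.log_le_iff_le_exp hx0).2 (hxr i)) l ?_
    show l ∈ (if x < 2 then ∅ else Λ x)
    rw [if_neg (by omega)]
    exact hl

/-- **Arbitrary bounded functions.** -/
theorem lawF (b d : ℕ) (hb : 2 ≤ b) (hd : 1 ≤ d) (δ : ℝ) (hδ : 0 < δ) (A A₂ : ℕ) : ∃ c : ℝ, 0 < c ∧ ∃ y₀ : ℕ,
    ∀ (K r : Fin d → ℕ) (y : ℕ), (∀ l, 2 * r l ≤ K l) → y₀ ≤ y →
    ∀ N : Fin d → ℕ, (∀ l, N l < b ^ K l) → ∀ f : Fin d → ℕ → ℕ, (∀ l j, f l j < b ∧ f l j ≠ digit b j (N l)) →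
    ∀ (κ : Type) (Λ : ℕ → Finset κ), (∀ x, 2 ≤ x → (Λ x).card ≤ x ^ A₂) →
    ∀ P : ℕ → κ → Finset ℕ, (∀ x l, ∀ p ∈ P x l, p.Prime ∧ p ≤ x) →
    ∀ F : κ → ℕ → (Fin d → ℕ) → ℝ, (∀ l p, p.Prime → ∀ n, F l p n = F l p (fun i => n i % p)) →
    (∀ l p n, |F l p n| ≤ 1) →
    ∀ E : (Fin d → ℕ) → Prop,
    (∀ m : Fin d → ℕ, (∀ x : ℕ, 2 ≤ x → y ≤ x → (∀ l, (x : ℝ) ≤ Real.exp (c * r l)) → ∀ l ∈ Λ x,
      |∑ p ∈ P x l, F l p m - ∑ p ∈ P x l, mean d p (F l p)| ≤
        Real.sqrt (max 1 (∑ p ∈ P x l, mean d p (fun n => F l p n ^ 2))) * (x : ℝ) ^ δ) → E m) →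
    (exceptions b K r N f E : ℝ) ≤ 1 / (y : ℝ) ^ A * ∏ l, ((K l).choose (r l) : ℝ) := by
  classical
  obtain ⟨c, hc, x₀, h⟩ := Pool.Agent.TH894.NE.law3 b d hb hd δ A A₂ hδ
  refine ⟨c, hc, x₀ + 3, fun K r y hrK hy N hN f hf κ Λ hΛ P hP F hF hF1 E hE => ?_⟩
  have hy0 : (0 : ℝ) < y := by exact_mod_cast (by omega : 0 < y)
  have h1 : 1 / (y : ℝ) ^ A = (y : ℝ) ^ (-(A : ℝ)) := by
    rw [Real.rpow_neg hy0.le, Real.rpow_natCast, one_div]
  rw [h1]
  unfold exceptions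
  refine h r K y hrK (by omega) N hN f hf κ (fun x => if x < 2 then ∅ else Λ x) ?_ ℕ
    P (fun _ p => p) ?_ ?_ F ?_ ?_ _ (filter_subset _ _) ?_
  · intro x _
    show (((if x < 2 then ∅ else Λ x) : Finset κ).card : ℝ) ≤ _
    split_ifs with hx
    · rw [card_empty, Nat.cast_zero]
      positivity
    · rw [Real.rpow_natCast]
      exact_mod_cast hΛ x (by omega)
  · intro x l _ p hp
    exact ⟨(hP x l p hp).1.one_lt.le, (hP x l p hp).2⟩
  · intro x l _ p hp p' hp' hne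
    exact (Nat.coprime_primes (hP x l p hp).1 (hP x l p' hp').1).2 hne
  · intro x l _ p hp m
    exact hF l p (hP x l p hp).1 m
  · intro x l _ p _ m
    exact hF1 l p m
  · intro S hS
    rw [mem_filter] at hS
    obtain ⟨_, hS2⟩ := hS
    by_contra hcon
    push Not at hcon
    refine hS2 (hE _ fun x hx2 hyx hxr l hl => ?_)
    have hx0 : (0 : ℝ) < x := by exact_mod_cast (by omega : 0 < x)
    refine hcon x hyx (fun i => (Real.log_le_iff_le_exp hx0).2 (hxr i)) l ?_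
    show l ∈ (if x < 2 then ∅ else Λ x)
    rw [if_neg (by omega)]
    exact hl

end Pool.Agent.Y57.FD
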