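import Pool.Agent.Y57.FD.Base
import Pool.Agent.TH894.NF1

/-!
# Weighted sums over tuples of consecutive primes of products of bounded local functions, for the integer vectors obtained
by changing few digits
-/

set_option autoImplicit false

namespace Pool.Agent.Y57.FD

open Finset Filter
open Pool.Agent.TH894.NE (Pr mean box Per mean_prod mean_mono mean_const mean_mul card_box)
open Pool.Agent.TH894.NF (pr pr_prime pr_inj qk qk_pos pr_le_qk qk_cop)

theorem per_prod {d s : ℕ} (G : Fin s → ℕ → (Fin d → ℕ) → ℝ) (hG : ∀ i p, p.Prime → ∀ m, G i p m = G i p (fun j => m j % p))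
    (k : ℕ) : Per (qk s k) (fun m => ∏ i : Fin s, G i (pr (k + i)) m) := by
  intro m
  refine prod_congr rfl fun i _ => ?_
  have h : Per (pr (k + i)) (G i (pr (k + i))) := hG i _ (pr_prime _)
  have h2 : pr (k + i) ∣ qk s k := by
    unfold qk
    exact dvd_prod_of_mem (fun i : Fin s => pr (k + i)) (mem_univ i)
  exact h.of_dvd h2 m

theorem mean_tuple {d s : ℕ} (G : Fin s → ℕ → (Fin d → ℕ) → ℝ) (hG : ∀ i p, p.Prime → ∀ m, G i p m = G i p (fun j => m j % p))
    (k : ℕ) : mean d (qk s k) (fun m => ∏ i : Fin s, G i (pr (k + i)) m) =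
      ∏ i : Fin s, mean d (pr (k + i)) (G i (pr (k + i))) := by
  have h := mean_prod (d := d) (univ : Finset (Fin s)) (fun i => pr (k + i)) (fun i _ => (pr_prime _).one_lt.le)
    (by
      intro i _ i' _ hne
      rw [Nat.coprime_primes (pr_prime _) (pr_prime _)]
      intro h
      have h3 := pr_inj h
      apply hne
      ext
      omega)
    (fun i => G i (pr (k + i))) (fun i _ => hG i _ (pr_prime _))
  rw [← h]
  rfl

theorem tuples (b d s : ℕ) (hb : 2 ≤ b) (hd : 1 ≤ d) (hs : 1 ≤ s) (δ : ℝ) (hδ : 0 < δ) (A A₂ : ℕ) : ∃ c : ℝ, 0 < c ∧ ∃ y₀ : ℕ,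
    ∀ (K r : Fin d → ℕ) (y : ℕ), (∀ l, 2 * r l ≤ K l) → y₀ ≤ y →
    ∀ N : Fin d → ℕ, (∀ l, N l < b ^ K l) → ∀ f : Fin d → ℕ → ℕ, (∀ l j, f l j < b ∧ f l j ≠ digit b j (N l)) →
    ∀ (κ : Type) (Λ : ℕ → Finset κ), (∀ n, 2 ≤ n → (Λ n).card ≤ n ^ A₂) →
    ∀ w : κ → ℕ → ℝ, (∀ n, ∀ l ∈ Λ n, ∀ k, |w l k| ≤ 1) →
    ∀ G : κ → Fin s → ℕ → (Fin d → ℕ) → ℝ, (∀ l i p, p.Prime → ∀ m, G l i p m = G l i p (fun j => m j % p)) →
    (∀ l i p m, |G l i p m| ≤ 1) →
    ∀ E : (Fin d → ℕ) → Prop,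
    (∀ m : Fin d → ℕ, (∀ n : ℕ, 2 ≤ n → y ≤ n → (∀ l, (n : ℝ) ≤ Real.exp (c * r l)) → ∀ l ∈ Λ n,
      |∑ k ∈ range n, w l k * ∏ i : Fin s, G l i (pr (k + i)) m -
        ∑ k ∈ range n, w l k * ∏ i : Fin s, mean d (pr (k + i)) (G l i (pr (k + i)))| ≤
        Real.sqrt (max 1 (∑ k ∈ range n, w l k ^ 2)) * (n : ℝ) ^ δ) → E m) →
    (exceptions b K r N f E : ℝ) ≤ 1 / (y : ℝ) ^ A * ∏ l, ((K l).choose (r l) : ℝ) := by
  classical
  have hsr : (1 : ℝ) ≤ s := by exact_mod_cast hs
  obtain ⟨c, hc, x₀, h⟩ := Pool.Agent.TH894.NE.law3 b d hb hd (δ / (6 * s)) A (A₂ + 3) (by positivity)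
  have hev : ∀ᶠ n : ℕ in atTop, (s : ℝ) ≤ (n : ℝ) ^ (δ / 2) := by
    have h1 : Tendsto (fun x : ℝ => x ^ (δ / 2)) atTop atTop := tendsto_rpow_atTop (by positivity)
    exact (h1.comp tendsto_natCast_atTop_atTop).eventually (eventually_ge_atTop _)
  obtain ⟨n₁, hn₁⟩ := eventually_atTop.1 hev
  refine ⟨c / (3 * s), by positivity, x₀ + n₁ + 16 * s + 16, fun K r y hrK hy N hN f hf κ Λ hΛ w hw G hG hG1 E hE => ?_⟩
  have hyr : (1 : ℝ) ≤ y := by exact_mod_cast (by omega : 1 ≤ y)
  have hy0 : (0 : ℝ) < y := by linarith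
  have h1 : 1 / (y : ℝ) ^ A = (y : ℝ) ^ (-(A : ℝ)) := by
    rw [Real.rpow_neg hy0.le, Real.rpow_natCast, one_div]
  rw [h1]
  unfold exceptions
  -- the parameters
  obtain ⟨Θ, hΘ⟩ : ∃ Θ : ℕ → Finset (ℕ × ℕ × κ), Θ = fun x => if x < s + 3 then ∅ else
      (Icc 2 x).biUnion (fun n => (range s).biUnion (fun t => (Λ n).image (fun l => (n, t, l)))) := ⟨_, rfl⟩
  have hmemΘ : ∀ x : ℕ, s + 3 ≤ x → ∀ n t : ℕ, ∀ l : κ, (n, t, l) ∈ Θ x ↔ (2 ≤ n ∧ n ≤ x) ∧ t < s ∧ l ∈ Λ n := by
    intro x hx n t l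
    rw [hΘ]
    show (n, t, l) ∈ (if x < s + 3 then ∅ else _) ↔ _
    rw [if_neg (by omega)]
    simp only [mem_biUnion, mem_image, mem_Icc, mem_range, Prod.mk.injEq]
    constructor
    · rintro ⟨n', hn', t', ht', l', hl', e1, e2, e3⟩
      subst e1; subst e2; subst e3
      exact ⟨hn', ht', hl'⟩
    · rintro ⟨hn', ht', hl'⟩
      exact ⟨n, hn', t, ht', l, hl', rfl, rfl, rfl⟩
  have hΘl : ∀ x : ℕ, ∀ l ∈ Θ x, s + 3 ≤ x := by
    intro x l hl
    by_contra hcon
    rw [hΘ] at hl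
    change l ∈ (if x < s + 3 then (∅ : Finset (ℕ × ℕ × κ)) else _) at hl
    rw [if_pos (by omega)] at hl
    exact absurd hl (notMem_empty _)
  have hprod1 : ∀ (l : κ) (k : ℕ) (m : Fin d → ℕ), |∏ i : Fin s, G l i (pr (k + i)) m| ≤ 1 := by
    intro l k m
    rw [abs_prod]
    exact prod_le_one (fun i _ => abs_nonneg _) (fun i _ => hG1 _ _ _ _)
  refine h r K y hrK (by omega) N hN f hf (ℕ × ℕ × κ) Θ ?_ ℕ
    (fun x l => (range l.1).filter (fun k => k % s = l.2.1 ∧ qk s k ≤ x)) (fun _ k => qk s k) ?_ ?_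
    (fun l k m => w l.2.2 k * ∏ i : Fin s, G l.2.2 i (pr (k + i)) m) ?_ ?_ _ (filter_subset _ _) ?_
  · intro x _
    by_cases hx : x < s + 3
    · have : Θ x = ∅ := by
        rw [hΘ]
        show (if x < s + 3 then (∅ : Finset (ℕ × ℕ × κ)) else _) = ∅
        rw [if_pos hx]
      rw [this, card_empty, Nat.cast_zero]
      positivity
    · push Not at hx
      have hxr : (3 : ℝ) ≤ x := by exact_mod_cast (by omega : 3 ≤ x)
      have hsx : (s : ℝ) ≤ x := by exact_mod_cast (by omega : s ≤ x)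
      have hΘx : Θ x = (Icc 2 x).biUnion (fun n => (range s).biUnion (fun t => (Λ n).image (fun l => (n, t, l)))) := by
        rw [hΘ]
        show (if x < s + 3 then (∅ : Finset (ℕ × ℕ × κ)) else _) = _
        rw [if_neg (by omega)]
      have hc1 : (Θ x).card ≤ x * (s * x ^ A₂) := by
        rw [hΘx]
        refine card_biUnion_le.trans ?_
        have h2 : ∀ n ∈ Icc 2 x, ((range s).biUnion (fun t => (Λ n).image (fun l => (n, t, l)))).card ≤ s * x ^ A₂ := by
          intro n hn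
          rw [mem_Icc] at hn
          refine card_biUnion_le.trans ?_
          have h3 : ∀ t ∈ range s, ((Λ n).image (fun l => (n, t, l))).card ≤ x ^ A₂ := by
            intro t _
            exact card_image_le.trans ((hΛ n hn.1).trans (Nat.pow_le_pow_left hn.2 _))
          refine (sum_le_sum h3).trans ?_
          rw [sum_const, card_range, smul_eq_mul]
        refine (sum_le_sum h2).trans ?_
        rw [sum_const, smul_eq_mul, Nat.card_Icc]
        exact Nat.mul_le_mul_right _ (by omega)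
      have hc2 : ((Θ x).card : ℝ) ≤ (x : ℝ) * (s * (x : ℝ) ^ A₂) := by exact_mod_cast hc1
      refine hc2.trans ?_
      have e2 : (x : ℝ) ^ ((A₂ : ℝ) + 3) = (x : ℝ) * ((x * x) * (x : ℝ) ^ A₂) := by
        have : ((A₂ : ℝ) + 3) = ((A₂ + 3 : ℕ) : ℝ) := by push_cast; ring
        rw [this, Real.rpow_natCast]
        ring
      rw [e2]
      gcongr
      nlinarith
  · intro x l _ k hk
    rw [mem_filter] at hk
    exact ⟨qk_pos s k, hk.2.2⟩
  · intro x l _ k hk k' hk' hne
    rw [mem_filter] at hk hk'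
    exact qk_cop s k k' (hk.2.1.trans hk'.2.1.symm) hne
  · intro x l _ k _ m
    show w l.2.2 k * ∏ i : Fin s, G l.2.2 i (pr (k + i)) m = w l.2.2 k * _
    exact congrArg (fun z => w l.2.2 k * z) (per_prod (G l.2.2) (hG l.2.2) k m)
  · intro x l hl k _ m
    obtain ⟨n, t, l'⟩ := l
    have h2 := (hmemΘ x (hΘl x _ hl) n t l').1 hl
    rw [abs_mul]
    exact mul_le_one₀ (hw n l' h2.2.2 k) (abs_nonneg _) (hprod1 l' k m)
  · intro S hS
    rw [mem_filter] at hS
    obtain ⟨_, hS2⟩ := hS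
    obtain ⟨m, hm⟩ : ∃ m : Fin d → ℕ, m = fun l => change b (K l) (N l) (f l) (S l) := ⟨_, rfl⟩
    by_contra hcon
    push Not at hcon
    refine hS2 (hE _ fun n hn2 hyn hnr l hl => ?_)
    rw [← hm]
    have hn16 : 16 * s + 16 ≤ n := by omega
    have hnr16 : (16 : ℝ) * s + 16 ≤ n := by exact_mod_cast hn16
    have hn0 : (0 : ℝ) < n := by linarith
    have hn1 : (1 : ℝ) ≤ n := by linarith
    obtain ⟨x, hx⟩ : ∃ x, x = n ^ (3 * s) := ⟨_, rfl⟩
    have hxr : (x : ℝ) = (n : ℝ) ^ (3 * s) := by rw [hx]; push_cast; ring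
    have hnx : n ≤ x := by
      rw [hx]
      exact Nat.le_self_pow (by omega) n
    have hq : ∀ k ∈ range n, qk s k ≤ x := by
      intro k hk
      rw [mem_range] at hk
      unfold qk
      calc ∏ i : Fin s, pr (k + i) ≤ ∏ _i : Fin s, n ^ 3 := by
            apply prod_le_prod'
            intro i _
            refine (Pool.Agent.TH862.EA.nth_prime_le (k + i)).trans ?_
            have h1 : k + i + 1 ≤ n + s := by have := i.isLt; omega
            have h2 : n + s ≤ 2 * n := by omega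
            calc 4 * (k + i + 1) ^ 2 ≤ 4 * (2 * n) ^ 2 := Nat.mul_le_mul_left 4 (Nat.pow_le_pow_left (h1.trans h2) 2)
              _ = 16 * n ^ 2 := by ring
              _ ≤ n * n ^ 2 := Nat.mul_le_mul_right _ (by omega)
              _ = n ^ 3 := by ring
        _ = x := by rw [prod_const, card_univ, Fintype.card_fin, hx, ← pow_mul]
    have hclass : ∀ t ∈ range s, ((range n).filter (fun k => k % s = t ∧ qk s k ≤ x)) = (range n).filter (fun k => k % s = t) := by
      intro t _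
      apply filter_congr
      intro k hk
      exact ⟨fun h => h.1, fun h => ⟨h, hq k hk⟩⟩
    have hmem : ∀ t ∈ range s, (n, t, l) ∈ Θ x := by
      intro t ht
      rw [hmemΘ x (by omega)]
      exact ⟨⟨hn2, hnx⟩, mem_range.1 ht, hl⟩
    have hlogx : ∀ i, Real.log x ≤ c * r i := by
      intro i
      rw [hxr, Real.log_pow]
      have h1 : Real.log n ≤ c / (3 * s) * r i := (Real.log_le_iff_le_exp hn0).2 (hnr i)
      push_cast
      calc (3 * (s : ℝ)) * Real.log n ≤ (3 * s) * (c / (3 * s) * r i) := mul_le_mul_of_nonneg_left h1 (by positivity)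
        _ = c * r i := by field_simp
    obtain ⟨V, hV⟩ : ∃ V : ℝ, V = ∑ k ∈ range n, w l k ^ 2 := ⟨_, rfl⟩
    obtain ⟨T, hT⟩ : ∃ T : ℕ → ℝ, T = fun k => w l k * ∏ i : Fin s, G l i (pr (k + i)) m -
      w l k * ∏ i : Fin s, mean d (pr (k + i)) (G l i (pr (k + i))) := ⟨_, rfl⟩
    have hmeank : ∀ k, mean d (qk s k) (fun m => w l k * ∏ i : Fin s, G l i (pr (k + i)) m) =
        w l k * ∏ i : Fin s, mean d (pr (k + i)) (G l i (pr (k + i))) := by
      intro k
      rw [Pool.Agent.TH894.NE.mean_mul, mean_tuple (G l) (hG l) k]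
    have hpart : ∀ t ∈ range s, |∑ k ∈ (range n).filter (fun k => k % s = t), T k| ≤ Real.sqrt (max 1 V) * (n : ℝ) ^ (δ / 2) := by
      intro t ht
      have h1 := hcon x (by omega) hlogx (n, t, l) (hmem t ht)
      simp only at h1
      have hm' : (fun i => Pool.Agent.TH894.SM.change b (K i) (N i) (f i) (S i)) = m := by
        rw [hm]
        rfl
      rw [hclass t ht, hm', sum_congr rfl fun k _ => hmeank k, ← sum_sub_distrib] at h1
      rw [hT]
      refine h1.trans ?_
      apply mul_le_mul _ _ (by positivity) (Real.sqrt_nonneg _)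
      · apply Real.sqrt_le_sqrt
        apply max_le_max le_rfl
        rw [hV]
        calc ∑ k ∈ (range n).filter (fun k => k % s = t), mean d (qk s k) (fun m => (w l k * ∏ i : Fin s, G l i (pr (k + i)) m) ^ 2) ≤
            ∑ k ∈ (range n).filter (fun k => k % s = t), w l k ^ 2 := by
              refine sum_le_sum fun k _ => ?_
              have h2 : mean d (qk s k) (fun m => (w l k * ∏ i : Fin s, G l i (pr (k + i)) m) ^ 2) ≤
                  mean d (qk s k) (fun _ => w l k ^ 2) := by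
                apply Pool.Agent.TH894.NE.mean_mono
                intro m
                rw [mul_pow]
                have h3 : (∏ i : Fin s, G l i (pr (k + i)) m) ^ 2 ≤ 1 := by
                  rw [sq_le_one_iff_abs_le_one]
                  exact hprod1 l k m
                nlinarith [sq_nonneg (w l k)]
              rwa [Pool.Agent.TH894.NE.mean_const d (qk s k) (qk_pos s k)] at h2
          _ ≤ ∑ k ∈ range n, w l k ^ 2 := sum_le_sum_of_subset_of_nonneg (filter_subset _ _) fun k _ _ => sq_nonneg _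
      · rw [hxr, ← Real.rpow_natCast, ← Real.rpow_mul hn0.le]
        apply Real.rpow_le_rpow_of_exponent_le hn1
        push_cast
        have : 3 * (s : ℝ) * (δ / (6 * s)) = δ / 2 := by field_simp; ring
        rw [this]
    have hsplit : ∑ k ∈ range n, w l k * ∏ i : Fin s, G l i (pr (k + i)) m -
        ∑ k ∈ range n, w l k * ∏ i : Fin s, mean d (pr (k + i)) (G l i (pr (k + i))) =
        ∑ t ∈ range s, ∑ k ∈ (range n).filter (fun k => k % s = t), T k := by
      rw [sum_fiberwise_of_maps_to (s := range n) (t := range s) (g := fun k => k % s) (fun k _ => mem_range.2 (Nat.mod_lt _ (by omega))),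
        hT, ← sum_sub_distrib]
    rw [hsplit, ← hV]
    refine (abs_sum_le_sum_abs _ _).trans ((sum_le_sum hpart).trans ?_)
    rw [sum_const, card_range, nsmul_eq_mul]
    have e1 : (n : ℝ) ^ δ = (n : ℝ) ^ (δ / 2) * (n : ℝ) ^ (δ / 2) := by
      rw [← Real.rpow_add hn0]
      congr 1
      ring
    rw [e1]
    have h9 := hn₁ n (by omega)
    have h10 : 0 ≤ Real.sqrt (max 1 V) * (n : ℝ) ^ (δ / 2) := by positivity
    nlinarith

end Pool.Agent.Y57.FD
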