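import Pool.Agent.Y57.FD.Tup

/-!
# Square-root cancellation over tuples of consecutive primes for local functions with small means
-/

set_option autoImplicit false

namespace Pool.Agent.Y57.FD

open Finset Filter
open Pool.Agent.TH894.NE (Pr mean box Per mean_prod mean_mono mean_const mean_mul card_box mean_abs_le)
open Pool.Agent.TH894.NF (pr pr_prime pr_inj qk qk_pos pr_le_qk qk_cop)

theorem le_pr (k : ℕ) : k + 1 ≤ pr k := by
  have h := Nat.add_two_le_nth_prime k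
  unfold pr
  omega

/-- weighted sums with inverse square roots of primes -/
theorem sum_inv (n i : ℕ) (w : ℕ → ℝ) (a : ℕ → ℝ) (C : ℝ) (hC : 0 ≤ C) (ha : ∀ k, |a k| ≤ C / Real.sqrt (pr (k + i))) :
    |∑ k ∈ range n, w k * a k| ≤ C * (Real.sqrt (∑ k ∈ range n, w k ^ 2) * Real.sqrt (1 + Real.log n)) := by
  have h1 : |∑ k ∈ range n, w k * a k| ≤ ∑ k ∈ range n, |w k| * |a k| :=
    (abs_sum_le_sum_abs _ _).trans (le_of_eq (sum_congr rfl fun k _ => abs_mul _ _))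
  have h2 : ∑ k ∈ range n, |w k| * |a k| ≤ Real.sqrt (∑ k ∈ range n, |w k| ^ 2) * Real.sqrt (∑ k ∈ range n, |a k| ^ 2) :=
    Real.sum_mul_le_sqrt_mul_sqrt _ _ _
  have h3 : ∑ k ∈ range n, |w k| ^ 2 = ∑ k ∈ range n, w k ^ 2 := sum_congr rfl fun k _ => sq_abs _
  have h4 : ∑ k ∈ range n, |a k| ^ 2 ≤ C ^ 2 * (1 + Real.log n) := by
    have h5 : ∀ k ∈ range n, |a k| ^ 2 ≤ C ^ 2 * ((k : ℝ) + 1)⁻¹ := by
      intro k _
      have h6 := ha k
      have h7 : (0 : ℝ) < pr (k + i) := by exact_mod_cast (pr_prime _).pos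
      have h8 : ((k : ℝ) + 1) ≤ pr (k + i) := by
        have := le_pr (k + i)
        exact_mod_cast (by omega : k + 1 ≤ pr (k + i))
      calc |a k| ^ 2 ≤ (C / Real.sqrt (pr (k + i))) ^ 2 := by
            apply pow_le_pow_left₀ (abs_nonneg _) h6
        _ = C ^ 2 * ((pr (k + i) : ℝ))⁻¹ := by
            rw [div_pow, Real.sq_sqrt h7.le]
            rfl
        _ ≤ C ^ 2 * ((k : ℝ) + 1)⁻¹ := by
            apply mul_le_mul_of_nonneg_left _ (sq_nonneg C)
            exact inv_anti₀ (by positivity) h8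
    refine (sum_le_sum h5).trans ?_
    rw [← mul_sum]
    apply mul_le_mul_of_nonneg_left _ (sq_nonneg C)
    have h9 := harmonic_le_one_add_log n
    have h10 : ((harmonic n : ℚ) : ℝ) = ∑ k ∈ range n, ((k : ℝ) + 1)⁻¹ := by
      unfold harmonic
      push_cast
      rfl
    rw [← h10]
    exact h9
  rw [h3] at h2
  refine h1.trans (h2.trans ?_)
  have h11 : Real.sqrt (∑ k ∈ range n, |a k| ^ 2) ≤ C * Real.sqrt (1 + Real.log n) := by
    calc Real.sqrt (∑ k ∈ range n, |a k| ^ 2) ≤ Real.sqrt (C ^ 2 * (1 + Real.log n)) := Real.sqrt_le_sqrt h4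
      _ = C * Real.sqrt (1 + Real.log n) := by
          rw [Real.sqrt_mul (sq_nonneg C), Real.sqrt_sq hC]
  calc Real.sqrt (∑ k ∈ range n, w k ^ 2) * Real.sqrt (∑ k ∈ range n, |a k| ^ 2) ≤
      Real.sqrt (∑ k ∈ range n, w k ^ 2) * (C * Real.sqrt (1 + Real.log n)) :=
        mul_le_mul_of_nonneg_left h11 (Real.sqrt_nonneg _)
    _ = _ := by ring

theorem tuples0 (b d s : ℕ) (hb : 2 ≤ b) (hd : 1 ≤ d) (hs : 1 ≤ s) (δ : ℝ) (hδ : 0 < δ) (A A₂ : ℕ) (B C₀ : ℝ)
    (hB : 1 ≤ B) (hC₀ : 0 ≤ C₀) : ∃ c : ℝ, 0 < c ∧ ∃ y₀ : ℕ,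
    ∀ (K r : Fin d → ℕ) (y : ℕ), (∀ l, 2 * r l ≤ K l) → y₀ ≤ y →
    ∀ N : Fin d → ℕ, (∀ l, N l < b ^ K l) → ∀ f : Fin d → ℕ → ℕ, (∀ l j, f l j < b ∧ f l j ≠ digit b j (N l)) →
    ∀ (κ : Type) (Λ : ℕ → Finset κ), (∀ n, 2 ≤ n → (Λ n).card ≤ n ^ A₂) →
    ∀ w : κ → ℕ → ℝ, (∀ n, ∀ l ∈ Λ n, ∀ k, |w l k| ≤ 1) →
    ∀ H : κ → Fin s → ℕ → (Fin d → ℕ) → ℝ, (∀ l i p, p.Prime → ∀ m, H l i p m = H l i p (fun j => m j % p)) →
    (∀ l i p, p.Prime → ∀ m, |H l i p m| ≤ B) →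
    (∀ n, ∀ l ∈ Λ n, ∃ i : Fin s, ∀ p, p.Prime → |mean d p (H l i p)| ≤ C₀ / Real.sqrt p) →
    ∀ E : (Fin d → ℕ) → Prop,
    (∀ m : Fin d → ℕ, (∀ n : ℕ, 2 ≤ n → y ≤ n → (∀ l, (n : ℝ) ≤ Real.exp (c * r l)) → ∀ l ∈ Λ n,
      |∑ k ∈ range n, w l k * ∏ i : Fin s, H l i (pr (k + i)) m| ≤
        Real.sqrt (max 1 (∑ k ∈ range n, w l k ^ 2)) * (n : ℝ) ^ δ) → E m) →
    (exceptions b K r N f E : ℝ) ≤ 1 / (y : ℝ) ^ A * ∏ l, ((K l).choose (r l) : ℝ) := by
  classical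
  have hB0 : 0 < B := by linarith
  obtain ⟨c, hc, y₁, h⟩ := tuples b d s hb hd hs (δ / 2) (by positivity) A A₂
  have hev : ∀ᶠ n : ℕ in atTop, B ^ s * (1 + C₀ * Real.sqrt (1 + Real.log n)) ≤ (n : ℝ) ^ (δ / 2) := by
    have h1 : Tendsto (fun x : ℝ => x ^ (δ / 4)) atTop atTop := tendsto_rpow_atTop (by positivity)
    have h2 : ∀ᶠ x : ℝ in atTop, B ^ s * (1 + C₀) ≤ x ^ (δ / 4) := h1.eventually (eventually_ge_atTop _)
    have h3 : ∀ᶠ x : ℝ in atTop, Real.log x ≤ x ^ (δ / 4) := by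
      have h4 := (isLittleO_log_rpow_atTop (show (0 : ℝ) < δ / 4 by positivity)).bound (show (0 : ℝ) < 1 by norm_num)
      filter_upwards [h4, eventually_ge_atTop 1] with x hx hx1
      rw [Real.norm_of_nonneg (Real.log_nonneg hx1), Real.norm_of_nonneg (by positivity), one_mul] at hx
      exact hx
    have h5 : ∀ᶠ x : ℝ in atTop, (3 : ℝ) ≤ x ^ (δ / 4) := h1.eventually (eventually_ge_atTop _)
    have h6 : ∀ᶠ x : ℝ in atTop, B ^ s * (1 + C₀ * Real.sqrt (1 + Real.log x)) ≤ x ^ (δ / 2) := by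
      filter_upwards [h2, h3, h5, eventually_ge_atTop 1] with x hx1 hx2 hx3 hx4
      have hl : 0 ≤ Real.log x := Real.log_nonneg hx4
      have h7 : Real.sqrt (1 + Real.log x) ≤ x ^ (δ / 4) := by
        apply Real.sqrt_le_iff.2
        constructor
        · linarith
        · nlinarith
      have h8 : (1 : ℝ) ≤ x ^ (δ / 4) := by linarith
      have h9 : x ^ (δ / 2) = x ^ (δ / 4) * x ^ (δ / 4) := by
        rw [← Real.rpow_add (by linarith)]
        congr 1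
        ring
      rw [h9]
      calc B ^ s * (1 + C₀ * Real.sqrt (1 + Real.log x)) ≤ B ^ s * (x ^ (δ / 4) + C₀ * x ^ (δ / 4)) := by
            gcongr
        _ = (B ^ s * (1 + C₀)) * x ^ (δ / 4) := by ring
        _ ≤ _ := mul_le_mul_of_nonneg_right hx1 (by linarith)
    exact tendsto_natCast_atTop_atTop.eventually h6
  obtain ⟨n₁, hn₁⟩ := eventually_atTop.1 hev
  refine ⟨c, hc, y₁ + n₁ + 2, fun K r y hrK hy N hN f hf κ Λ hΛ w hw H hper hHB hmean E hE => ?_⟩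
  obtain ⟨G, hG⟩ : ∃ G : κ → Fin s → ℕ → (Fin d → ℕ) → ℝ, G = fun l i p m => if p.Prime then H l i p m / B else 0 := ⟨_, rfl⟩
  have hGp : ∀ l i p, p.Prime → ∀ m, G l i p m = H l i p m / B := by
    intro l i p hp m
    rw [hG]
    show (if p.Prime then H l i p m / B else 0) = _
    rw [if_pos hp]
  refine h K r y hrK (by omega) N hN f hf κ Λ hΛ w hw G ?_ ?_ E ?_
  · intro l i p hp m
    rw [hGp l i p hp, hGp l i p hp, ← hper l i p hp m]
  · intro l i p m
    by_cases hp : p.Prime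
    · rw [hGp l i p hp, abs_div, abs_of_pos hB0, div_le_one hB0]
      exact hHB l i p hp m
    · rw [hG]
      show |(if p.Prime then H l i p m / B else 0)| ≤ 1
      rw [if_neg hp, abs_zero]
      exact zero_le_one
  · intro m hm
    refine hE m fun n hn2 hyn hnr l hl => ?_
    have h1 := hm n hn2 hyn hnr l hl
    obtain ⟨i₀, hi₀⟩ := hmean n l hl
    have hn0 : (0 : ℝ) < n := by exact_mod_cast (by omega : 0 < n)
    have hn1 : (1 : ℝ) ≤ n := by exact_mod_cast (by omega : 1 ≤ n)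
    have hl0 : 0 ≤ Real.log n := Real.log_nonneg hn1
    obtain ⟨V, hV⟩ : ∃ V : ℝ, V = ∑ k ∈ range n, w l k ^ 2 := ⟨_, rfl⟩
    have hfun : ∀ k, G l i₀ (pr k) = fun m => (1 / B) * H l i₀ (pr k) m := by
      intro k
      funext m
      rw [hGp l i₀ _ (pr_prime _)]
      ring
    have hG1 : ∀ i k, |mean d (pr k) (G l i (pr k))| ≤ 1 := by
      intro i k
      apply mean_abs_le (pr_prime _).one_lt.le
      intro m
      rw [hGp l i _ (pr_prime _), abs_div, abs_of_pos hB0, div_le_one hB0]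
      exact hHB l i _ (pr_prime _) m
    have h2 : |∑ k ∈ range n, w l k * ∏ i : Fin s, mean d (pr (k + i)) (G l i (pr (k + i)))| ≤
        C₀ * (Real.sqrt V * Real.sqrt (1 + Real.log n)) := by
      rw [hV]
      apply sum_inv n i₀ (w l) _ C₀ hC₀
      intro k
      rw [abs_prod, ← mul_prod_erase univ _ (mem_univ i₀)]
      have h3 : |mean d (pr (k + i₀)) (G l i₀ (pr (k + i₀)))| ≤ C₀ / Real.sqrt (pr (k + i₀)) := by
        rw [hfun, Pool.Agent.TH894.NE.mean_mul, abs_mul, abs_of_pos (by positivity : 0 < 1 / B)]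
        have h4 := hi₀ (pr (k + i₀)) (pr_prime _)
        have h5 : 1 / B ≤ 1 := by
          rw [div_le_one hB0]
          exact hB
        calc 1 / B * |mean d (pr (k + i₀)) (H l i₀ (pr (k + i₀)))| ≤ 1 * (C₀ / Real.sqrt (pr (k + i₀))) := by
              apply mul_le_mul h5 h4 (abs_nonneg _) zero_le_one
          _ = _ := one_mul _
      have h6 : ∏ i ∈ univ.erase i₀, |mean d (pr (k + i)) (G l i (pr (k + i)))| ≤ 1 :=
        prod_le_one (fun i _ => abs_nonneg _) (fun i _ => hG1 i _)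
      calc |mean d (pr (k + i₀)) (G l i₀ (pr (k + i₀)))| * ∏ i ∈ univ.erase i₀, |mean d (pr (k + i)) (G l i (pr (k + i)))| ≤
          (C₀ / Real.sqrt (pr (k + i₀))) * 1 := by
            apply mul_le_mul h3 h6 (prod_nonneg fun i _ => abs_nonneg _) (by positivity)
        _ = _ := mul_one _
    have h7 : ∑ k ∈ range n, w l k * ∏ i : Fin s, H l i (pr (k + i)) m =
        B ^ s * ∑ k ∈ range n, w l k * ∏ i : Fin s, G l i (pr (k + i)) m := by
      rw [mul_sum]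
      refine sum_congr rfl fun k _ => ?_
      have h8 : ∏ i : Fin s, H l i (pr (k + i)) m = B ^ s * ∏ i : Fin s, G l i (pr (k + i)) m := by
        have h9 : (B ^ s : ℝ) = ∏ _i : Fin s, B := by rw [prod_const, card_univ, Fintype.card_fin]
        rw [h9, ← prod_mul_distrib]
        refine prod_congr rfl fun i _ => ?_
        rw [hGp l i _ (pr_prime _)]
        field_simp
      rw [h8]
      ring
    rw [h7, abs_mul, abs_of_nonneg (by positivity : 0 ≤ B ^ s), ← hV]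
    rw [← hV] at h1
    have hV1 : Real.sqrt V ≤ Real.sqrt (max 1 V) := Real.sqrt_le_sqrt (le_max_right _ _)
    have h10 : |∑ k ∈ range n, w l k * ∏ i : Fin s, G l i (pr (k + i)) m| ≤
        Real.sqrt (max 1 V) * (n : ℝ) ^ (δ / 2) + C₀ * (Real.sqrt (max 1 V) * Real.sqrt (1 + Real.log n)) := by
      have h11 : |∑ k ∈ range n, w l k * ∏ i : Fin s, G l i (pr (k + i)) m| ≤
          |∑ k ∈ range n, w l k * ∏ i : Fin s, G l i (pr (k + i)) m -
            ∑ k ∈ range n, w l k * ∏ i : Fin s, mean d (pr (k + i)) (G l i (pr (k + i)))| +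
          |∑ k ∈ range n, w l k * ∏ i : Fin s, mean d (pr (k + i)) (G l i (pr (k + i)))| := by
        have := abs_add_le (∑ k ∈ range n, w l k * ∏ i : Fin s, G l i (pr (k + i)) m -
            ∑ k ∈ range n, w l k * ∏ i : Fin s, mean d (pr (k + i)) (G l i (pr (k + i))))
            (∑ k ∈ range n, w l k * ∏ i : Fin s, mean d (pr (k + i)) (G l i (pr (k + i))))
        rwa [sub_add_cancel] at this
      refine h11.trans (add_le_add h1 (h2.trans ?_))
      gcongr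
    have h12 : (1 : ℝ) ≤ (n : ℝ) ^ (δ / 2) := Real.one_le_rpow hn1 (by positivity)
    have h13 := hn₁ n (by omega)
    have e1 : (n : ℝ) ^ δ = (n : ℝ) ^ (δ / 2) * (n : ℝ) ^ (δ / 2) := by
      rw [← Real.rpow_add hn0]
      congr 1
      ring
    rw [e1]
    obtain ⟨R, hR⟩ : ∃ R : ℝ, R = Real.sqrt (max 1 V) := ⟨_, rfl⟩
    obtain ⟨Q, hQ⟩ : ∃ Q : ℝ, Q = (n : ℝ) ^ (δ / 2) := ⟨_, rfl⟩
    obtain ⟨L, hL⟩ : ∃ L : ℝ, L = Real.sqrt (1 + Real.log n) := ⟨_, rfl⟩
    rw [← hR, ← hQ, ← hL] at h10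
    rw [← hQ] at h12 h13
    rw [← hL] at h13
    rw [← hR, ← hQ]
    have hR0 : 0 ≤ R := by rw [hR]; exact Real.sqrt_nonneg _
    have hL0 : 0 ≤ L := by rw [hL]; exact Real.sqrt_nonneg _
    have hBs : 0 ≤ B ^ s := by positivity
    calc B ^ s * |∑ k ∈ range n, w l k * ∏ i : Fin s, G l i (pr (k + i)) m| ≤ B ^ s * (R * Q + C₀ * (R * L)) :=
          mul_le_mul_of_nonneg_left h10 hBs
      _ ≤ B ^ s * (R * Q + C₀ * (R * L) * Q) := by
          apply mul_le_mul_of_nonneg_left _ hBs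
          have : 0 ≤ C₀ * (R * L) := by positivity
          nlinarith
      _ = R * ((B ^ s * (1 + C₀ * L)) * Q) := by ring
      _ ≤ R * (Q * Q) := by
          apply mul_le_mul_of_nonneg_left _ hR0
          exact mul_le_mul_of_nonneg_right h13 (by linarith)

end Pool.Agent.Y57.FD
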